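import Mathlib

/-!
# Dynamical Mordell-Lang for curves and regular polynomial maps: definitions
-/

set_option autoImplicit false

namespace Pool.Agent.Helper65.RP

open MvPolynomial Filter Topology

/-! ### Orders of sequences along an ultrafilter -/

section ord
variable {Ω : Type} [NormedField Ω]

/-- The sequence `u` is almost everywhere nonzero and `- log ‖u n‖ / s n` tends to `α`. -/
def HasOrd (𝒰 : Ultrafilter ℕ) (s : ℕ → ℝ) (u : ℕ → Ω) (α : ℝ) : Prop :=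
  (∀ᶠ n in (𝒰 : Filter ℕ), u n ≠ 0) ∧
    Tendsto (fun n => -Real.log ‖u n‖ / s n) (𝒰 : Filter ℕ) (𝓝 α)

/-- The sequence `u` has order at least `α`. -/
def GeOrd (𝒰 : Ultrafilter ℕ) (s : ℕ → ℝ) (u : ℕ → Ω) (α : ℝ) : Prop :=
  ∀ ε : ℝ, 0 < ε → ∀ᶠ n in (𝒰 : Filter ℕ), ‖u n‖ ≤ Real.exp (-(α - ε) * s n)

end ord

section pol
variable {K Kb Ω : Type} [Field K] [Field Kb] [Algebra K Kb] [NormedField Ω] [Algebra K Ω]
  [Algebra Kb Ω] {N : ℕ}

/-- The values in `Ω` of a polynomial with coefficients in `Kb` at a sequence of `K`-points. -/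
noncomputable def ev (Ω : Type) [NormedField Ω] [Algebra Kb Ω] (z : ℕ → Fin N → K)
    (p : MvPolynomial (Fin N) Kb) (n : ℕ) : Ω :=
  algebraMap Kb Ω (eval (fun i => algebraMap K Kb (z n i)) p)

/-- The ideal of the polynomials that vanish at almost all points of the sequence. -/
def van (𝒰 : Ultrafilter ℕ) (z : ℕ → Fin N → K) : Ideal (MvPolynomial (Fin N) K) where
  carrier := {F | ∀ᶠ n in (𝒰 : Filter ℕ), eval (z n) F = 0}
  add_mem' := by
    intro F G hF hG
    filter_upwards [hF, hG] with n h1 h2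
    rw [map_add, h1, h2, add_zero]
  zero_mem' := by simp
  smul_mem' := by
    intro F G hG
    filter_upwards [hG] with n h1
    rw [smul_eq_mul, map_mul, h1, mul_zero]

/-- The dimension of the space of polynomials of degree at most `D` modulo an ideal. -/
noncomputable def rho (I : Ideal (MvPolynomial (Fin N) K)) (D : ℕ) : ℕ :=
  Module.finrank K ((restrictTotalDegree (Fin N) K D).map (Ideal.Quotient.mkₐ K I).toLinearMap)

/-- A sequence of `K`-points that tends to infinity at the place given by `Ω`, with scale `s`; the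
coordinate `i₀` has the largest possible size, and all coordinates are algebraic over `K(x_{i₀})`. -/
structure Lev (Ω : Type) [NormedField Ω] [Algebra K Ω] (𝒰 : Ultrafilter ℕ) (s : ℕ → ℝ)
    (z : ℕ → Fin N → K) (i₀ : Fin N) : Prop where
  hs : Tendsto s (𝒰 : Filter ℕ) atTop
  top : HasOrd 𝒰 s (fun n => algebraMap K Ω (z n i₀)) (-1)
  ge : ∀ i, GeOrd 𝒰 s (fun n => algebraMap K Ω (z n i)) (-1)
  alg : ∀ i, ∃ R : Polynomial (Polynomial K), R ≠ 0 ∧
    ∀ᶠ n in (𝒰 : Filter ℕ), (R.map (Polynomial.evalRingHom (z n i₀))).eval (z n i) = 0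

/-- The point `q` at infinity is the limit of the sequence, with a positive rate. -/
def IsCenter (Ω : Type) [NormedField Ω] [Algebra Kb Ω] (𝒰 : Ultrafilter ℕ) (s : ℕ → ℝ)
    (z : ℕ → Fin N → K) (i₀ : Fin N) (q : Fin N → Kb) : Prop :=
  q i₀ = 1 ∧ ∀ i, (∀ᶠ n in (𝒰 : Filter ℕ), ev Ω z (X i - C (q i) * X i₀) n = 0) ∨
    ∃ β : ℝ, -1 < β ∧ HasOrd 𝒰 s (ev Ω z (X i - C (q i) * X i₀)) β

end pol

/-- One distinguished absolute value of `K` (given by the embedding in `Ω`, with multiplicity `n`),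
the other ones `abv`, the product inequality on a ring `O` of integers, and the Subspace theorem
with algebraic coefficients at the distinguished place. -/
structure PD (K Ω : Type) [Field K] [NormedField Ω] [Algebra K Ω] (Λ : Type) [Fintype Λ] where
  n : ℕ
  hn : 0 < n
  abv : Λ → AbsoluteValue K ℝ
  O : Subring K
  frac : ∀ x : K, ∃ y ∈ O, y ≠ 0 ∧ x * y ∈ O
  one_le : ∀ x ∈ O, x ≠ 0 → 1 ≤ ‖algebraMap K Ω x‖ ^ n * ∏ l, abv l x
  sub : ∀ (M : ℕ) (A : Matrix (Fin M) (Fin M) Ω), 2 ≤ M → (∀ i j, IsAlgebraic K (A i j)) →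
    A.det ≠ 0 → ∀ δ B : ℝ, 0 < δ →
    ∃ 𝒲 : Finset (Submodule K (Fin M → K)), (∀ W ∈ 𝒲, W ≠ ⊤) ∧
      ∀ (Q : ℝ) (a : Fin M → ℝ) (b : Λ → ℝ) (y : Fin M → K), 1 ≤ Q → (∀ i, y i ∈ O) →
        (∀ i, Q ^ (-B) ≤ a i ∧ a i ≤ Q ^ B) → (∀ l, Q ^ (-B) ≤ b l ∧ b l ≤ Q ^ B) →
        (∀ i, ‖∑ j, A i j * algebraMap K Ω (y j)‖ ≤ a i) → (∀ l i, abv l (y i) ≤ b l) →
        (∏ i, a i) ^ n * ∏ l, b l ^ M ≤ Q ^ (-δ) → ∃ W ∈ 𝒲, y ∈ W

/-- The growth conditions at the places other than the distinguished one. -/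
structure Grow {K Ω : Type} [Field K] [NormedField Ω] [Algebra K Ω] {Λ : Type} [Fintype Λ]
    (Z : PD K Ω Λ) (g : Λ → ℝ) (𝒰 : Ultrafilter ℕ) (s : ℕ → ℝ) {N : ℕ} (z : ℕ → Fin N → K) :
    Prop where
  pos : ∀ l, 0 ≤ g l
  int : ∀ᶠ n in (𝒰 : Filter ℕ), ∀ i, z n i ∈ Z.O
  le : ∀ ε : ℝ, 0 < ε → ∀ᶠ n in (𝒰 : Filter ℕ), ∀ l i, Z.abv l (z n i) ≤ Real.exp ((g l + ε) * s n)

/-- The constant of the height inequalities. -/
noncomputable def PD.bd {K Ω : Type} [Field K] [NormedField Ω] [Algebra K Ω] {Λ : Type} [Fintype Λ]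
    (Z : PD K Ω Λ) (g : Λ → ℝ) : ℝ := 1 + (∑ l, g l) / Z.n

/-- The orbit of `a`. -/
noncomputable def orb {K : Type} [Field K] {N : ℕ} (f : Fin N → MvPolynomial (Fin N) K) (a : Fin N → K) (n : ℕ) :
    Fin N → K := (fun (x : Fin N → K) i => eval x (f i))^[n] a

/-- `f` is a regular polynomial map of degree `d`: the leading forms have no common zero. -/
def Regular {K : Type} [Field K] {N : ℕ} (Kb : Type) [Field Kb] [Algebra K Kb] (d : ℕ)
    (f : Fin N → MvPolynomial (Fin N) K) : Prop :=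
  (∀ i, (f i).totalDegree ≤ d) ∧
    ∀ y : Fin N → Kb, (∀ i, aeval y (homogeneousComponent d (f i)) = 0) → y = 0

/-- Logarithmic size of a vector. -/
noncomputable def lh {K : Type} [Field K] {N : ℕ} (v : AbsoluteValue K ℝ) (x : Fin N → K) : ℝ :=
  Real.log (max 1 (⨆ i, v (x i)))

/-- The iterates of `f`, as polynomials. -/
noncomputable def iter {K : Type} [Field K] {N : ℕ} (f : Fin N → MvPolynomial (Fin N) K) :
    ℕ → Fin N → MvPolynomial (Fin N) K
  | 0 => X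
  | k + 1 => fun i => bind₁ (iter f k) (f i)

end Pool.Agent.Helper65.RP
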