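import Pool.Agent.Helper65.RP.Defs

/-!
# Calculus of orders along an ultrafilter
-/

set_option autoImplicit false
set_option linter.unusedSectionVars false
set_option linter.unusedVariables false

namespace Pool.Agent.Helper65.RP

open MvPolynomial Filter Topology

section ord
variable {Ω : Type} [NormedField Ω] {𝒰 : Ultrafilter ℕ} {s : ℕ → ℝ} {u v : ℕ → Ω} {α β : ℝ}

/-- An ultrafilter chooses one of finitely many cases. -/
lemma exists_eventually {ι : Type*} [Finite ι] {p : ι → ℕ → Prop}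
    (h : ∀ᶠ n in (𝒰 : Filter ℕ), ∃ i, p i n) : ∃ i, ∀ᶠ n in (𝒰 : Filter ℕ), p i n := by
  by_contra hcon
  push Not at hcon
  have h1 : ∀ i, ∀ᶠ n in (𝒰 : Filter ℕ), ¬ p i n := fun i => hcon i
  have h2 : ∀ᶠ n in (𝒰 : Filter ℕ), ∀ i, ¬ p i n := eventually_all.2 h1
  obtain ⟨n, ⟨i, hi⟩, hn⟩ := (h.and h2).exists
  exact hn i hi

/-- An ultrafilter chooses one of finitely many cases. -/
lemma exists_eventually_mem {ι : Type*} (t : Finset ι) {p : ι → ℕ → Prop}
    (h : ∀ᶠ n in (𝒰 : Filter ℕ), ∃ i ∈ t, p i n) : ∃ i ∈ t, ∀ᶠ n in (𝒰 : Filter ℕ), p i n := by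
  have h1 : ∀ᶠ n in (𝒰 : Filter ℕ), ∃ i : t, p i n := by
    filter_upwards [h] with n ⟨i, hi, hp⟩
    exact ⟨⟨i, hi⟩, hp⟩
  obtain ⟨i, hi⟩ := exists_eventually h1
  exact ⟨i, i.2, hi⟩

lemma eventually_pos (hs : Tendsto s (𝒰 : Filter ℕ) atTop) : ∀ᶠ n in (𝒰 : Filter ℕ), 0 < s n :=
  hs.eventually_gt_atTop 0

lemma HasOrd.unique (h : HasOrd 𝒰 s u α) (h' : HasOrd 𝒰 s u β) : α = β :=
  tendsto_nhds_unique h.2 h'.2

lemma HasOrd.congr (h : HasOrd 𝒰 s u α) (huv : ∀ᶠ n in (𝒰 : Filter ℕ), u n = v n) :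
    HasOrd 𝒰 s v α := by
  refine ⟨?_, ?_⟩
  · filter_upwards [h.1, huv] with n h1 h2
    rwa [← h2]
  · refine h.2.congr' ?_
    filter_upwards [huv] with n h2
    rw [h2]

lemma HasOrd.of_norm {Ω' : Type} [NormedField Ω'] {w : ℕ → Ω'} (h : HasOrd 𝒰 s u α)
    (huv : ∀ᶠ n in (𝒰 : Filter ℕ), ‖w n‖ = ‖u n‖) : HasOrd 𝒰 s w α := by
  refine ⟨?_, ?_⟩
  · filter_upwards [h.1, huv] with n h1 h2
    rw [← norm_pos_iff, h2, norm_pos_iff]
    exact h1
  · refine h.2.congr' ?_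
    filter_upwards [huv] with n h2
    rw [h2]

lemma HasOrd.mul (h : HasOrd 𝒰 s u α) (h' : HasOrd 𝒰 s v β) :
    HasOrd 𝒰 s (fun n => u n * v n) (α + β) := by
  refine ⟨?_, ?_⟩
  · filter_upwards [h.1, h'.1] with n h1 h2
    exact mul_ne_zero h1 h2
  · refine (h.2.add h'.2).congr' ?_
    filter_upwards [h.1, h'.1] with n h1 h2
    rw [norm_mul, Real.log_mul (norm_ne_zero_iff.2 h1) (norm_ne_zero_iff.2 h2)]
    ring

lemma HasOrd.inv (h : HasOrd 𝒰 s u α) : HasOrd 𝒰 s (fun n => (u n)⁻¹) (-α) := by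
  refine ⟨?_, ?_⟩
  · filter_upwards [h.1] with n h1
    exact inv_ne_zero h1
  · refine h.2.neg.congr' (Eventually.of_forall fun n => ?_)
    simp only
    rw [norm_inv, Real.log_inv]
    ring

lemma HasOrd.div (h : HasOrd 𝒰 s u α) (h' : HasOrd 𝒰 s v β) :
    HasOrd 𝒰 s (fun n => u n / v n) (α - β) := by
  have h1 := h.mul h'.inv
  rw [← sub_eq_add_neg] at h1
  exact h1.congr (Eventually.of_forall fun n => (div_eq_mul_inv _ _).symm)

lemma HasOrd.neg (h : HasOrd 𝒰 s u α) : HasOrd 𝒰 s (fun n => - u n) α :=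
  h.of_norm (Eventually.of_forall fun n => norm_neg _)

lemma hasOrd_const (hs : Tendsto s (𝒰 : Filter ℕ) atTop) {c : Ω} (hc : c ≠ 0) :
    HasOrd 𝒰 s (fun _ => c) 0 := by
  refine ⟨Eventually.of_forall fun _ => hc, ?_⟩
  exact tendsto_const_nhds.div_atTop hs

lemma HasOrd.pow (hs : Tendsto s (𝒰 : Filter ℕ) atTop) (h : HasOrd 𝒰 s u α) (k : ℕ) :
    HasOrd 𝒰 s (fun n => u n ^ k) (k * α) := by
  induction k with
  | zero =>
    simp only [Nat.cast_zero, zero_mul, pow_zero]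
    exact hasOrd_const hs one_ne_zero
  | succ k ih =>
    have h1 := ih.mul h
    have e1 : ((k + 1 : ℕ) : ℝ) * α = k * α + α := by push_cast; ring
    rw [e1]
    exact h1.congr (Eventually.of_forall fun n => (pow_succ _ _).symm)

lemma HasOrd.prod {ι : Type*} (hs : Tendsto s (𝒰 : Filter ℕ) atTop) (t : Finset ι)
    {w : ι → ℕ → Ω} {a : ι → ℝ} (h : ∀ i ∈ t, HasOrd 𝒰 s (w i) (a i)) :
    HasOrd 𝒰 s (fun n => ∏ i ∈ t, w i n) (∑ i ∈ t, a i) := by
  classical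
  induction t using Finset.induction_on with
  | empty =>
    simp only [Finset.prod_empty, Finset.sum_empty]
    exact hasOrd_const hs one_ne_zero
  | insert i t hi ih =>
    have h1 := (h i (Finset.mem_insert_self _ _)).mul
      (ih fun j hj => h j (Finset.mem_insert_of_mem hj))
    rw [Finset.sum_insert hi]
    exact h1.congr (Eventually.of_forall fun n => by
      rw [Finset.prod_insert hi])

lemma HasOrd.of_tendsto (hs : Tendsto s (𝒰 : Filter ℕ) atTop) {c : Ω} (hc : c ≠ 0)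
    (h : Tendsto u (𝒰 : Filter ℕ) (𝓝 c)) : HasOrd 𝒰 s u 0 := by
  refine ⟨h.eventually_ne hc, ?_⟩
  have h1 : Tendsto (fun n => -Real.log ‖u n‖) (𝒰 : Filter ℕ) (𝓝 (-Real.log ‖c‖)) :=
    (h.norm.log (norm_ne_zero_iff.2 hc)).neg
  exact h1.div_atTop hs

/-- Two-sided exponential bounds. -/
lemma HasOrd.bounds (hs : Tendsto s (𝒰 : Filter ℕ) atTop) (h : HasOrd 𝒰 s u α) {ε : ℝ}
    (hε : 0 < ε) : ∀ᶠ n in (𝒰 : Filter ℕ), Real.exp (-(α + ε) * s n) ≤ ‖u n‖ ∧
      ‖u n‖ ≤ Real.exp (-(α - ε) * s n) := by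
  have h1 := h.2.eventually (Metric.ball_mem_nhds α hε)
  filter_upwards [h1, h.1, eventually_pos hs] with n h1 h2 h3
  rw [Real.dist_eq, abs_lt] at h1
  obtain ⟨h4, h5⟩ := h1
  have h6 : 0 < ‖u n‖ := norm_pos_iff.2 h2
  have h7 : -Real.log ‖u n‖ / s n * s n = -Real.log ‖u n‖ := div_mul_cancel₀ _ h3.ne'
  constructor
  · rw [← Real.le_log_iff_exp_le h6]
    nlinarith
  · rw [← Real.log_le_iff_le_exp h6]
    nlinarith

lemma hasOrd_of_bounds (hs : Tendsto s (𝒰 : Filter ℕ) atTop)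
    (h : ∀ ε : ℝ, 0 < ε → ∀ᶠ n in (𝒰 : Filter ℕ), Real.exp (-(α + ε) * s n) ≤ ‖u n‖ ∧
      ‖u n‖ ≤ Real.exp (-(α - ε) * s n)) : HasOrd 𝒰 s u α := by
  have hne : ∀ᶠ n in (𝒰 : Filter ℕ), u n ≠ 0 := by
    filter_upwards [h 1 one_pos] with n h1
    have h2 : 0 < ‖u n‖ := lt_of_lt_of_le (Real.exp_pos _) h1.1
    exact norm_pos_iff.1 h2
  refine ⟨hne, ?_⟩
  rw [Metric.tendsto_nhds]
  intro ε hε
  filter_upwards [h (ε / 2) (by positivity), hne, eventually_pos hs] with n h1 h2 h3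
  have h6 : 0 < ‖u n‖ := norm_pos_iff.2 h2
  obtain ⟨h4, h5⟩ := h1
  rw [← Real.le_log_iff_exp_le h6] at h4
  rw [← Real.log_le_iff_le_exp h6] at h5
  have h7 : -Real.log ‖u n‖ / s n * s n = -Real.log ‖u n‖ := div_mul_cancel₀ _ h3.ne'
  rw [Real.dist_eq, abs_lt]
  constructor
  · by_contra hcon
    push Not at hcon
    nlinarith
  · by_contra hcon
    push Not at hcon
    nlinarith

lemma HasOrd.ge (hs : Tendsto s (𝒰 : Filter ℕ) atTop) (h : HasOrd 𝒰 s u α) :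
    GeOrd 𝒰 s u α := by
  intro ε hε
  filter_upwards [h.bounds hs hε] with n h1
  exact h1.2

lemma GeOrd.congr (h : GeOrd 𝒰 s u α) (huv : ∀ᶠ n in (𝒰 : Filter ℕ), u n = v n) :
    GeOrd 𝒰 s v α := by
  intro ε hε
  filter_upwards [h ε hε, huv] with n h1 h2
  rwa [← h2]

lemma GeOrd.of_norm {Ω' : Type} [NormedField Ω'] {w : ℕ → Ω'} (h : GeOrd 𝒰 s u α)
    (huv : ∀ᶠ n in (𝒰 : Filter ℕ), ‖w n‖ ≤ ‖u n‖) : GeOrd 𝒰 s w α := by
  intro ε hε
  filter_upwards [h ε hε, huv] with n h1 h2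
  exact h2.trans h1

lemma GeOrd.mono (hs : Tendsto s (𝒰 : Filter ℕ) atTop) (h : GeOrd 𝒰 s u α) (hβ : β ≤ α) :
    GeOrd 𝒰 s u β := by
  intro ε hε
  filter_upwards [h ε hε, eventually_pos hs] with n h1 h2
  refine h1.trans (Real.exp_le_exp.2 ?_)
  nlinarith

lemma GeOrd.of_forall (h : ∀ β < α, GeOrd 𝒰 s u β) : GeOrd 𝒰 s u α := by
  intro ε hε
  filter_upwards [h (α - ε / 2) (by linarith) (ε / 2) (by positivity)] with n h1
  have e1 : α - ε / 2 - ε / 2 = α - ε := by ring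
  rwa [e1] at h1

lemma geOrd_zero : GeOrd 𝒰 s (fun _ => (0 : Ω)) α := by
  intro ε _
  refine Eventually.of_forall fun n => ?_
  rw [norm_zero]
  exact (Real.exp_pos _).le

lemma geOrd_of_eventually_zero (h : ∀ᶠ n in (𝒰 : Filter ℕ), u n = 0) : GeOrd 𝒰 s u α :=
  geOrd_zero.congr (by filter_upwards [h] with n h1; exact h1.symm)

/-- Bounded sequences have nonnegative order. -/
lemma geOrd_of_bdd (hs : Tendsto s (𝒰 : Filter ℕ) atTop) (C : ℝ)
    (h : ∀ᶠ n in (𝒰 : Filter ℕ), ‖u n‖ ≤ C) : GeOrd 𝒰 s u 0 := by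
  intro ε hε
  have h1 : ∀ᶠ n in (𝒰 : Filter ℕ), Real.log (max C 1) / ε < s n :=
    hs.eventually_gt_atTop _
  filter_upwards [h, h1] with n h2 h3
  rw [div_lt_iff₀ hε] at h3
  have h4 : 0 < max C 1 := lt_of_lt_of_le one_pos (le_max_right _ _)
  have h5 : -(0 - ε) * s n = s n * ε := by ring
  rw [h5]
  refine (h2.trans (le_max_left C 1)).trans ?_
  rw [← Real.log_le_iff_le_exp h4]
  exact h3.le

lemma geOrd_const (hs : Tendsto s (𝒰 : Filter ℕ) atTop) (c : Ω) :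
    GeOrd 𝒰 s (fun _ => c) 0 :=
  geOrd_of_bdd hs ‖c‖ (Eventually.of_forall fun _ => le_rfl)

lemma GeOrd.neg (h : GeOrd 𝒰 s u α) : GeOrd 𝒰 s (fun n => - u n) α :=
  h.of_norm (Eventually.of_forall fun n => (norm_neg _).le)

lemma GeOrd.add (hs : Tendsto s (𝒰 : Filter ℕ) atTop) (h : GeOrd 𝒰 s u α)
    (h' : GeOrd 𝒰 s v α) : GeOrd 𝒰 s (fun n => u n + v n) α := by
  intro ε hε
  have h1 : ∀ᶠ n in (𝒰 : Filter ℕ), Real.log 2 / (ε / 2) < s n :=
    hs.eventually_gt_atTop _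
  filter_upwards [h (ε / 2) (by positivity), h' (ε / 2) (by positivity), h1] with n h2 h3 h4
  rw [div_lt_iff₀ (by positivity)] at h4
  have h5 : (2 : ℝ) ≤ Real.exp (s n * (ε / 2)) := by
    rw [← Real.log_le_iff_le_exp (by norm_num)]
    exact h4.le
  calc ‖u n + v n‖ ≤ ‖u n‖ + ‖v n‖ := norm_add_le _ _
    _ ≤ 2 * Real.exp (-(α - ε / 2) * s n) := by linarith
    _ ≤ Real.exp (s n * (ε / 2)) * Real.exp (-(α - ε / 2) * s n) :=
        mul_le_mul_of_nonneg_right h5 (Real.exp_pos _).le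
    _ = Real.exp (-(α - ε) * s n) := by
        rw [← Real.exp_add]
        congr 1
        ring

lemma GeOrd.sub (hs : Tendsto s (𝒰 : Filter ℕ) atTop) (h : GeOrd 𝒰 s u α)
    (h' : GeOrd 𝒰 s v α) : GeOrd 𝒰 s (fun n => u n - v n) α :=
  (h.add hs h'.neg).congr (Eventually.of_forall fun n => (sub_eq_add_neg _ _).symm)

lemma GeOrd.sum {ι : Type*} (hs : Tendsto s (𝒰 : Filter ℕ) atTop) (t : Finset ι)
    {w : ι → ℕ → Ω} (h : ∀ i ∈ t, GeOrd 𝒰 s (w i) α) :
    GeOrd 𝒰 s (fun n => ∑ i ∈ t, w i n) α := by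
  classical
  induction t using Finset.induction_on with
  | empty =>
    simp only [Finset.sum_empty]
    exact geOrd_zero
  | insert i t hi ih =>
    have h1 := (h i (Finset.mem_insert_self _ _)).add hs
      (ih fun j hj => h j (Finset.mem_insert_of_mem hj))
    exact h1.congr (Eventually.of_forall fun n => by
      rw [Finset.sum_insert hi])

lemma GeOrd.mul (h : GeOrd 𝒰 s u α) (h' : GeOrd 𝒰 s v β) :
    GeOrd 𝒰 s (fun n => u n * v n) (α + β) := by
  intro ε hε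
  filter_upwards [h (ε / 2) (by positivity), h' (ε / 2) (by positivity)] with n h2 h3
  calc ‖u n * v n‖ = ‖u n‖ * ‖v n‖ := norm_mul _ _
    _ ≤ Real.exp (-(α - ε / 2) * s n) * Real.exp (-(β - ε / 2) * s n) :=
        mul_le_mul h2 h3 (norm_nonneg _) (Real.exp_pos _).le
    _ = Real.exp (-(α + β - ε) * s n) := by
        rw [← Real.exp_add]
        congr 1
        ring

lemma GeOrd.pow (hs : Tendsto s (𝒰 : Filter ℕ) atTop) (h : GeOrd 𝒰 s u α) (k : ℕ) :
    GeOrd 𝒰 s (fun n => u n ^ k) (k * α) := by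
  induction k with
  | zero =>
    simp only [Nat.cast_zero, zero_mul, pow_zero]
    exact geOrd_const hs 1
  | succ k ih =>
    have h1 := ih.mul h
    have e1 : ((k + 1 : ℕ) : ℝ) * α = k * α + α := by push_cast; ring
    rw [e1]
    exact h1.congr (Eventually.of_forall fun n => (pow_succ _ _).symm)

lemma GeOrd.const_mul (hs : Tendsto s (𝒰 : Filter ℕ) atTop) (c : Ω) (h : GeOrd 𝒰 s u α) :
    GeOrd 𝒰 s (fun n => c * u n) α := by
  have h1 := (geOrd_const (𝒰 := 𝒰) hs c).mul h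
  rwa [zero_add] at h1

/-- A term of smaller order dominates. -/
lemma HasOrd.add_ge (hs : Tendsto s (𝒰 : Filter ℕ) atTop) (h : HasOrd 𝒰 s u α)
    (h' : GeOrd 𝒰 s v β) (hαβ : α < β) : HasOrd 𝒰 s (fun n => u n + v n) α := by
  refine hasOrd_of_bounds hs fun ε hε => ?_
  have hup : GeOrd 𝒰 s (fun n => u n + v n) α := (h.ge hs).add hs (h'.mono hs hαβ.le)
  set δ : ℝ := min (ε / 2) ((β - α) / 4) with hδ
  have hδ0 : 0 < δ := lt_min (by positivity) (by linarith)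
  have hδ1 : δ ≤ ε / 2 := min_le_left _ _
  have hδ2 : δ ≤ (β - α) / 4 := min_le_right _ _
  have h1 : ∀ᶠ n in (𝒰 : Filter ℕ), Real.log 2 / ((β - α) / 2) < s n :=
    hs.eventually_gt_atTop _
  filter_upwards [hup ε hε, h.bounds hs hδ0, h' δ hδ0, h1, eventually_pos hs,
    hs.eventually_gt_atTop (Real.log 2 / (ε / 2))] with n h2 h3 h4 h5 h6 h7
  refine ⟨?_, h2⟩
  rw [div_lt_iff₀ (by linarith)] at h5
  rw [div_lt_iff₀ (by linarith)] at h7
  have h8 : (2 : ℝ) ≤ Real.exp (s n * ((β - α) / 2)) := by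
    rw [← Real.log_le_iff_le_exp (by norm_num)]
    exact h5.le
  have h9 : (2 : ℝ) ≤ Real.exp (s n * (ε / 2)) := by
    rw [← Real.log_le_iff_le_exp (by norm_num)]
    exact h7.le
  -- the second term is at most half the first
  have h10 : 2 * ‖v n‖ ≤ ‖u n‖ := by
    calc 2 * ‖v n‖ ≤ Real.exp (s n * ((β - α) / 2)) * Real.exp (-(β - δ) * s n) :=
          mul_le_mul h8 h4 (norm_nonneg _) (Real.exp_pos _).le
      _ = Real.exp (s n * ((β - α) / 2) + -(β - δ) * s n) := (Real.exp_add _ _).symm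
      _ ≤ Real.exp (-(α + δ) * s n) := by
          apply Real.exp_le_exp.2
          nlinarith
      _ ≤ ‖u n‖ := h3.1
  have h11 : ‖u n‖ ≤ 2 * ‖u n + v n‖ := by
    have h12 : ‖u n‖ ≤ ‖u n + v n‖ + ‖v n‖ := by
      have := norm_sub_le (u n + v n) (v n)
      rwa [add_sub_cancel_right] at this
    linarith
  have h13 : 2 * Real.exp (-(α + ε) * s n) ≤ ‖u n‖ := by
    calc 2 * Real.exp (-(α + ε) * s n)
        ≤ Real.exp (s n * (ε / 2)) * Real.exp (-(α + ε) * s n) :=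
          mul_le_mul_of_nonneg_right h9 (Real.exp_pos _).le
      _ = Real.exp (s n * (ε / 2) + -(α + ε) * s n) := (Real.exp_add _ _).symm
      _ ≤ Real.exp (-(α + δ) * s n) := by
          apply Real.exp_le_exp.2
          nlinarith
      _ ≤ ‖u n‖ := h3.1
  linarith

lemma GeOrd.le_of_hasOrd (hs : Tendsto s (𝒰 : Filter ℕ) atTop) (h : GeOrd 𝒰 s u β)
    (h' : HasOrd 𝒰 s u α) : β ≤ α := by
  by_contra hcon
  push Not at hcon
  set ε : ℝ := (β - α) / 4 with hε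
  have hε0 : 0 < ε := by rw [hε]; linarith
  obtain ⟨n, h1, h2, h3⟩ := ((h ε hε0).and ((h'.bounds hs hε0).and (eventually_pos hs))).exists
  have h4 := h2.1.trans h1
  rw [Real.exp_le_exp] at h4
  have h5 : 4 * ε = β - α := by rw [hε]; ring
  nlinarith

lemma GeOrd.tendsto_zero (hs : Tendsto s (𝒰 : Filter ℕ) atTop) (h : GeOrd 𝒰 s u α)
    (hα : 0 < α) : Tendsto u (𝒰 : Filter ℕ) (𝓝 0) := by
  rw [tendsto_zero_iff_norm_tendsto_zero]
  have h1 : Tendsto (fun n => Real.exp (-(α / 2) * s n)) (𝒰 : Filter ℕ) (𝓝 0) := by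
    apply Real.tendsto_exp_atBot.comp
    exact hs.const_mul_atTop_of_neg (by linarith)
  refine squeeze_zero' (Eventually.of_forall fun n => norm_nonneg _) ?_ h1
  filter_upwards [h (α / 2) (by positivity)] with n h2
  have e1 : α - α / 2 = α / 2 := by ring
  rwa [e1] at h2

lemma HasOrd.tendsto_zero (hs : Tendsto s (𝒰 : Filter ℕ) atTop) (h : HasOrd 𝒰 s u α)
    (hα : 0 < α) : Tendsto u (𝒰 : Filter ℕ) (𝓝 0) :=
  (h.ge hs).tendsto_zero hs hα

lemma HasOrd.tendsto_norm_atTop (hs : Tendsto s (𝒰 : Filter ℕ) atTop) (h : HasOrd 𝒰 s u α)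
    (hα : α < 0) : Tendsto (fun n => ‖u n‖) (𝒰 : Filter ℕ) atTop := by
  have h1 : Tendsto (fun n => Real.exp (-(α / 2) * s n)) (𝒰 : Filter ℕ) atTop := by
    apply Real.tendsto_exp_atTop.comp
    exact hs.const_mul_atTop (by linarith)
  refine tendsto_atTop_mono' _ ?_ h1
  filter_upwards [h.bounds hs (ε := -α / 2) (by linarith)] with n h2
  have e1 : α + -α / 2 = α / 2 := by ring
  rw [e1] at h2
  exact h2.1

/-- Change of scale. -/
lemma HasOrd.scale {s' : ℕ → ℝ} {e : ℝ} (he : e ≠ 0)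
    (hss : ∀ᶠ n in (𝒰 : Filter ℕ), s n = e * s' n) (h : HasOrd 𝒰 s u α) :
    HasOrd 𝒰 s' u (e * α) := by
  refine ⟨h.1, (h.2.const_mul e).congr' ?_⟩
  filter_upwards [hss] with n h1
  rw [h1]
  by_cases h2 : s' n = 0
  · simp [h2]
  · field_simp

lemma GeOrd.scale {s' : ℕ → ℝ} {e : ℝ} (he : 0 < e)
    (hss : ∀ᶠ n in (𝒰 : Filter ℕ), s n = e * s' n) (h : GeOrd 𝒰 s u α) :
    GeOrd 𝒰 s' u (e * α) := by
  intro ε hε
  filter_upwards [h (ε / e) (by positivity), hss] with n h1 h2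
  rw [h2] at h1
  have e1 : -(α - ε / e) * (e * s' n) = -(e * α - ε) * s' n := by
    field_simp
    try ring
  rwa [e1] at h1

/-- A sequence between two exponentials has an order. -/
lemma exists_hasOrd (hs : Tendsto s (𝒰 : Filter ℕ) atTop) (C : ℝ)
    (h : ∀ᶠ n in (𝒰 : Filter ℕ), Real.exp (-C * s n) ≤ ‖u n‖ ∧ ‖u n‖ ≤ Real.exp (C * s n)) :
    ∃ α : ℝ, HasOrd 𝒰 s u α := by
  have hmem : ∀ᶠ n in (𝒰 : Filter ℕ), -Real.log ‖u n‖ / s n ∈ Set.Icc (-C) C := by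
    filter_upwards [h, eventually_pos hs] with n h1 h2
    have h3 : 0 < ‖u n‖ := lt_of_lt_of_le (Real.exp_pos _) h1.1
    obtain ⟨h4, h5⟩ := h1
    rw [← Real.le_log_iff_exp_le h3] at h4
    rw [← Real.log_le_iff_le_exp h3] at h5
    rw [Set.mem_Icc, le_div_iff₀ h2, div_le_iff₀ h2]
    constructor <;> linarith
  have hc : IsCompact (Set.Icc (-C) C) := isCompact_Icc
  obtain ⟨α, -, hα⟩ := hc.ultrafilter_le_nhds (𝒰.map fun n => -Real.log ‖u n‖ / s n)
    (by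
      rw [le_principal_iff]
      exact hmem)
  refine ⟨α, ?_, hα⟩
  filter_upwards [h] with n h1
  exact norm_pos_iff.1 (lt_of_lt_of_le (Real.exp_pos _) h1.1)

end ord

section pol
variable {K Kb Ω : Type} [Field K] [Field Kb] [Algebra K Kb] [NormedField Ω] [Algebra K Ω]
  [Algebra Kb Ω] {N : ℕ} (z : ℕ → Fin N → K)

lemma ev_add (p q : MvPolynomial (Fin N) Kb) (n : ℕ) :
    ev Ω z (p + q) n = ev Ω z p n + ev Ω z q n := by
  simp only [ev, map_add]

lemma ev_sub (p q : MvPolynomial (Fin N) Kb) (n : ℕ) :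
    ev Ω z (p - q) n = ev Ω z p n - ev Ω z q n := by
  simp only [ev, map_sub]

lemma ev_neg (p : MvPolynomial (Fin N) Kb) (n : ℕ) : ev Ω z (-p) n = - ev Ω z p n := by
  simp only [ev, map_neg]

lemma ev_mul (p q : MvPolynomial (Fin N) Kb) (n : ℕ) :
    ev Ω z (p * q) n = ev Ω z p n * ev Ω z q n := by
  simp only [ev, map_mul]

lemma ev_pow (p : MvPolynomial (Fin N) Kb) (k n : ℕ) : ev Ω z (p ^ k) n = ev Ω z p n ^ k := by
  simp only [ev, map_pow]

lemma ev_sum {ι : Type*} (t : Finset ι) (p : ι → MvPolynomial (Fin N) Kb) (n : ℕ) :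
    ev Ω z (∑ i ∈ t, p i) n = ∑ i ∈ t, ev Ω z (p i) n := by
  simp only [ev, map_sum]

lemma ev_prod {ι : Type*} (t : Finset ι) (p : ι → MvPolynomial (Fin N) Kb) (n : ℕ) :
    ev Ω z (∏ i ∈ t, p i) n = ∏ i ∈ t, ev Ω z (p i) n := by
  simp only [ev, map_prod]

@[simp] lemma ev_zero (n : ℕ) : ev Ω z (0 : MvPolynomial (Fin N) Kb) n = 0 := by
  simp only [ev, map_zero]

@[simp] lemma ev_one (n : ℕ) : ev Ω z (1 : MvPolynomial (Fin N) Kb) n = 1 := by
  simp only [ev, map_one]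

lemma ev_C (c : Kb) (n : ℕ) : ev Ω z (C c : MvPolynomial (Fin N) Kb) n = algebraMap Kb Ω c := by
  simp only [ev, eval_C]

variable [IsScalarTower K Kb Ω]

lemma ev_X (i : Fin N) (n : ℕ) :
    ev Ω z (X i : MvPolynomial (Fin N) Kb) n = algebraMap K Ω (z n i) := by
  simp only [ev, eval_X]
  rw [← IsScalarTower.algebraMap_apply]

/-- Polynomials over `K`. -/
lemma ev_map (F : MvPolynomial (Fin N) K) (n : ℕ) :
    ev Ω z (MvPolynomial.map (algebraMap K Kb) F) n = algebraMap K Ω (eval (z n) F) := by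
  simp only [ev]
  have h1 : eval (fun i => algebraMap K Kb (z n i)) (MvPolynomial.map (algebraMap K Kb) F) =
      algebraMap K Kb (eval (z n) F) := by
    rw [eval_map]
    exact (eval₂_comp_left (algebraMap K Kb) (RingHom.id K) (z n) F).symm
  rw [h1, ← IsScalarTower.algebraMap_apply]

lemma ev_eq_zero_iff (p : MvPolynomial (Fin N) Kb) (n : ℕ) :
    ev Ω z p n = 0 ↔ eval (fun i => algebraMap K Kb (z n i)) p = 0 := by
  simp only [ev]
  exact map_eq_zero _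

end pol

section lev
variable {K Kb Ω : Type} [Field K] [Field Kb] [Algebra K Kb] [NormedField Ω] [Algebra K Ω]
  [Algebra Kb Ω] [IsScalarTower K Kb Ω] {N : ℕ} {𝒰 : Ultrafilter ℕ} {s : ℕ → ℝ}
  {z : ℕ → Fin N → K} {i₀ : Fin N}

/-- Polynomials of degree at most `D` have order at least `-D`. -/
lemma Lev.geOrd_ev (h : Lev Ω 𝒰 s z i₀) (p : MvPolynomial (Fin N) Kb) {D : ℕ}
    (hD : p.totalDegree ≤ D) : GeOrd 𝒰 s (ev Ω z p) (-(D : ℝ)) := by
  classical
  have h0 : ∀ n, ev Ω z p n = ∑ m ∈ p.support, algebraMap Kb Ω (p.coeff m) *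
      ∏ i, algebraMap K Ω (z n i) ^ m i := by
    intro n
    simp only [ev]
    rw [eval_eq', map_sum]
    refine Finset.sum_congr rfl fun m _ => ?_
    rw [map_mul, map_prod]
    congr 1
    refine Finset.prod_congr rfl fun i _ => ?_
    rw [map_pow, ← IsScalarTower.algebraMap_apply]
  have h1 : ∀ m ∈ p.support, GeOrd 𝒰 s (fun n => algebraMap Kb Ω (p.coeff m) *
      ∏ i, algebraMap K Ω (z n i) ^ m i) (-(D : ℝ)) := by
    intro m hm
    have h2 : ∀ (t : Finset (Fin N)), GeOrd 𝒰 s (fun n => ∏ i ∈ t, algebraMap K Ω (z n i) ^ m i)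
        (∑ i ∈ t, (m i : ℝ) * (-1)) := by
      intro t
      induction t using Finset.induction_on with
      | empty =>
        simp only [Finset.prod_empty, Finset.sum_empty]
        exact geOrd_const h.hs 1
      | insert i t hi ih =>
        rw [Finset.sum_insert hi]
        exact (((h.ge i).pow h.hs (m i)).mul ih).congr
          (Eventually.of_forall fun n => by
      rw [Finset.prod_insert hi])
    refine GeOrd.const_mul h.hs _ ((h2 Finset.univ).mono h.hs ?_)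
    have h3 : ∑ i, (m i : ℝ) ≤ D := by
      have h4 := (le_totalDegree hm).trans hD
      have h5 : m.sum (fun _ e => e) = ∑ i, m i := Finsupp.sum_fintype _ _ (by simp)
      rw [h5] at h4
      exact_mod_cast h4
    have h6 : ∑ i, (m i : ℝ) * (-1) = -∑ i, (m i : ℝ) := by
      rw [← Finset.sum_mul]
      ring
    rw [h6]
    linarith
  exact (GeOrd.sum h.hs p.support h1).congr (Eventually.of_forall fun n => (h0 n).symm)

lemma mem_van {F : MvPolynomial (Fin N) K} :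
    F ∈ van 𝒰 z ↔ ∀ᶠ n in (𝒰 : Filter ℕ), eval (z n) F = 0 := Iff.rfl

lemma van_isPrime (𝒰 : Ultrafilter ℕ) (z : ℕ → Fin N → K) : (van 𝒰 z).IsPrime := by
  refine ⟨?_, ?_⟩
  · rw [Ne, Ideal.eq_top_iff_one]
    intro h
    rw [mem_van] at h
    obtain ⟨n, hn⟩ := h.exists
    rw [map_one] at hn
    exact one_ne_zero hn
  · intro F G h
    rw [mem_van] at h
    simp only [map_mul, mul_eq_zero] at h
    rw [Ultrafilter.eventually_or] at h
    exact h

end lev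

end Pool.Agent.Helper65.RP
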