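import Pool.Agent.Helper65.RP.Defs

/-!
# Dynamical Mordell-Lang for curves and regular polynomial maps: the chart at infinity
-/

set_option autoImplicit false

namespace Pool.Agent.Helper65.RP

open MvPolynomial Filter Topology

/-- The point `(t, y) = (1 / x_{i₀}, x_i / x_{i₀})` of the chart at infinity. -/
def pt {K : Type} [Field K] {N : ℕ} (x : Fin N → K) (i₀ : Fin N) : Option (Fin N) → K
  | none => (x i₀)⁻¹
  | some i => x i / x i₀

/-- The homogenised polynomial `t ^ D p (y / t)`, if `D` is at least the degree of `p`. -/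
noncomputable def hmg {K : Type} [Field K] {N : ℕ} (L : Type) [Field L] [Algebra K L] (D : ℕ)
    (p : MvPolynomial (Fin N) K) : MvPolynomial (Option (Fin N)) L :=
  ∑ k ∈ Finset.range (D + 1),
    X none ^ (D - k) * rename some (map (algebraMap K L) (homogeneousComponent k p))

/-- The ideal of the point `q` of the affine space. -/
noncomputable def ptIdeal {L : Type} [Field L] {N : ℕ} (q : Fin N → L) : Ideal (MvPolynomial (Fin N) L) :=
  Ideal.span (Set.range fun i => X i - C (q i))

/-- The ideal of the point `(0, q)` of the chart at infinity. -/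
noncomputable def ptIdeal' {L : Type} [Field L] {N : ℕ} (q : Fin N → L) :
    Ideal (MvPolynomial (Option (Fin N)) L) :=
  Ideal.span (insert (X none) (Set.range fun i => X (some i) - C (q i)))

/-- The ideal of the slice `y_{i₀} = 1` of the fibre of the rational map `y ↦ H y / H_{i₀} y`. -/
noncomputable def sliceIdeal {K : Type} [Field K] {N : ℕ} {L : Type} [Field L] [Algebra K L]
    (H : Fin N → MvPolynomial (Fin N) K) (q : Fin N → L) (i₀ : Fin N) :
    Ideal (MvPolynomial (Fin N) L) :=
  Ideal.span (insert (X i₀ - 1) (Set.range fun i =>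
    map (algebraMap K L) (H i) - C (q i) * map (algebraMap K L) (H i₀)))

/-- The fibre ideal of the map `H` through the point `y`. -/
noncomputable def fibreIdeal {K : Type} [Field K] {N : ℕ} {Kb : Type} [Field Kb] [Algebra K Kb]
    (H : Fin N → MvPolynomial (Fin N) K) (y : Fin N → Kb) : Ideal (MvPolynomial (Fin N) Kb) :=
  Ideal.span (Set.range fun i => map (algebraMap K Kb) (H i) - C (aeval y (H i)))

/-- The local multiplicity of the map `H` at `y` is smaller than `e`. -/
def MultLT {K : Type} [Field K] {N : ℕ} {Kb : Type} [Field Kb] [Algebra K Kb]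
    (H : Fin N → MvPolynomial (Fin N) K) (y : Fin N → Kb) (e : ℕ) : Prop :=
  ∀ n : ℕ, Module.finrank Kb (MvPolynomial (Fin N) Kb ⧸ (fibreIdeal H y ⊔ ptIdeal y ^ n)) < e

end Pool.Agent.Helper65.RP
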