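import Pool.Agent.Helper65.RP.Api
import Pool.Agent.Helper65.RP.Defs2

/-!
# Dynamical Mordell-Lang for curves and regular polynomial maps: small lemmas for the ending
-/

set_option autoImplicit false
set_option linter.unusedVariables false

namespace Pool.Agent.Helper65.RP

open MvPolynomial Filter Topology

section iterates
variable {K : Type} [Field K] {N : ℕ}

lemma iter_add (f : Fin N → MvPolynomial (Fin N) K) (m k : ℕ) (i : Fin N) :
    iter f (m + k) i = bind₁ (iter f m) (iter f k i) := by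
  induction k generalizing i with
  | zero => simp [iter]
  | succ k ih =>
    have h1 : iter f (m + (k + 1)) i = bind₁ (iter f (m + k)) (f i) := rfl
    have h2 : iter f (k + 1) i = bind₁ (iter f k) (f i) := rfl
    rw [h1, h2, bind₁_bind₁]
    congr 2
    funext j
    exact ih j

lemma iter_iter (f : Fin N → MvPolynomial (Fin N) K) (k k' : ℕ) :
    iter (iter f k) k' = iter f (k * k') := by
  induction k' with
  | zero => rfl
  | succ k' ih =>
    funext i
    have h1 : iter (iter f k) (k' + 1) i = bind₁ (iter (iter f k) k') (iter f k i) := rfl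
    rw [h1, ih, ← iter_add]
    rfl

lemma eval_bind (x : Fin N → K) (g : Fin N → MvPolynomial (Fin N) K)
    (P : MvPolynomial (Fin N) K) :
    eval x (bind₁ g P) = eval (fun i => eval x (g i)) P := by
  have := aeval_bind₁ x g P
  simpa [aeval_eq_eval] using this

variable {𝒰 : Ultrafilter ℕ} {F : Fin N → MvPolynomial (Fin N) K} {z : ℕ → ℕ → Fin N → K}

lemma shift_iter
    (hz : ∀ m, ∀ᶠ n in (𝒰 : Filter ℕ), ∀ i, z m n i = eval (z (m + 1) n) (F i)) (m k : ℕ) :
    ∀ᶠ n in (𝒰 : Filter ℕ), ∀ i, z m n i = eval (z (m + k) n) (iter F k i) := by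
  induction k generalizing m with
  | zero =>
    refine Eventually.of_forall fun n i => ?_
    simp [iter]
  | succ k ih =>
    filter_upwards [hz m, ih (m + 1)] with n h1 h2 i
    have h3 : iter F (k + 1) i = bind₁ (iter F k) (F i) := rfl
    rw [h3, eval_bind, h1 i]
    congr 2
    funext j
    rw [h2 j]
    congr 3
    omega

lemma mem_van_shift
    (hz : ∀ m, ∀ᶠ n in (𝒰 : Filter ℕ), ∀ i, z m n i = eval (z (m + 1) n) (F i)) (m k : ℕ)
    (P : MvPolynomial (Fin N) K) :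
    P ∈ van 𝒰 (z m) ↔ bind₁ (iter F k) P ∈ van 𝒰 (z (m + k)) := by
  rw [mem_van, mem_van]
  have h1 := shift_iter hz m k
  have h2 : ∀ᶠ n in (𝒰 : Filter ℕ), eval (z m n) P = eval (z (m + k) n) (bind₁ (iter F k) P) := by
    filter_upwards [h1] with n hn
    rw [eval_bind]
    congr 2
    funext i
    exact hn i
  constructor
  · intro h
    filter_upwards [h, h2] with n h3 h4
    rw [← h4, h3]
  · intro h
    filter_upwards [h, h2] with n h3 h4
    rw [h4, h3]

/-- Two equal levels give an invariant ideal. -/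
lemma exists_shift
    (hz : ∀ m, ∀ᶠ n in (𝒰 : Filter ℕ), ∀ i, z m n i = eval (z (m + 1) n) (F i)) {m m' : ℕ}
    (hmm : m < m') (h : van 𝒰 (z m) = van 𝒰 (z m')) :
    ∃ k, 1 ≤ k ∧ ∀ P ∈ van 𝒰 (z 0), bind₁ (iter F k) P ∈ van 𝒰 (z 0) := by
  have h0 : ∀ P, P ∈ van 𝒰 (z 0) ↔ P ∈ van 𝒰 (z (m' - m)) := by
    intro P
    rw [mem_van_shift hz 0 m P, mem_van_shift hz (m' - m) m P, zero_add,
      show m' - m + m = m' by omega, h]
  refine ⟨m' - m, by omega, fun P hP => ?_⟩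
  rw [h0]
  have h1 := (mem_van_shift hz 0 (m' - m) P).1 hP
  rwa [zero_add] at h1

end iterates

/-- Choice of the level and of the degree. -/
lemma exists_degree {κ B A : ℝ} (hκ : 0 < κ) (hB : 1 ≤ B) (hA : 0 ≤ A) {e ν : ℕ} (he : 2 ≤ e)
    (hν : ν < e) {ε : ℝ} (hε : 0 < ε) :
    ∃ j D : ℕ, 1 ≤ D ∧ (D : ℝ) * B < (e : ℝ) ^ j * κ ∧
      A * ((e * ν : ℕ) : ℝ) ^ j ≤ ε * (D : ℝ) ^ 2 := by
  have he0 : (0 : ℝ) < e := by
    have : (0 : ℕ) < e := by omega
    exact_mod_cast this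
  have he1 : (1 : ℝ) < e := by
    have : (1 : ℕ) < e := by omega
    exact_mod_cast this
  have hB0 : 0 < B := by linarith
  have hr0 : 0 ≤ (ν : ℝ) / e := by positivity
  have hr1 : (ν : ℝ) / e < 1 := by
    rw [div_lt_one he0]
    exact_mod_cast hν
  have h1 : Tendsto (fun j : ℕ => A * ((ν : ℝ) / e) ^ j) atTop (𝓝 (A * 0)) :=
    (tendsto_pow_atTop_nhds_zero_of_lt_one hr0 hr1).const_mul A
  rw [mul_zero] at h1
  have h2 : ∀ᶠ j : ℕ in atTop, A * ((ν : ℝ) / e) ^ j < ε * κ ^ 2 / (16 * B ^ 2) :=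
    h1.eventually_lt_const (by positivity)
  have h3 : ∀ᶠ j : ℕ in atTop, 4 * B / κ < (e : ℝ) ^ j :=
    (tendsto_pow_atTop_atTop_of_one_lt he1).eventually_gt_atTop _
  obtain ⟨j, hj1, hj2⟩ := (h2.and h3).exists
  set E : ℝ := (e : ℝ) ^ j with hE
  have hE0 : 0 < E := by positivity
  have h4 : 4 * B < E * κ := by
    rw [div_lt_iff₀ hκ] at hj2
    exact hj2
  set x : ℝ := E * κ / (2 * B) with hx
  have hx2 : 2 < x := by
    rw [hx, lt_div_iff₀ (by positivity)]
    linarith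
  have hD1 : x - 1 < (⌊x⌋₊ : ℝ) := by
    have := Nat.lt_floor_add_one x
    linarith
  have hD2 : (⌊x⌋₊ : ℝ) ≤ x := Nat.floor_le (by linarith)
  refine ⟨j, ⌊x⌋₊, ?_, ?_, ?_⟩
  · apply Nat.le_floor
    push_cast
    linarith
  · have h5 : (⌊x⌋₊ : ℝ) * B ≤ x * B := mul_le_mul_of_nonneg_right hD2 hB0.le
    have h6 : x * B = E * κ / 2 := by
      rw [hx]
      field_simp
    have h7 : 0 < E * κ := by positivity
    linarith
  · have h5 : x / 2 ≤ (⌊x⌋₊ : ℝ) := by linarith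
    have h6 : (x / 2) ^ 2 ≤ (⌊x⌋₊ : ℝ) ^ 2 := pow_le_pow_left₀ (by linarith) h5 2
    have h7 : (x / 2) ^ 2 = E ^ 2 * (κ ^ 2 / (16 * B ^ 2)) := by
      rw [hx]
      field_simp
      ring
    have h8 : A * ((e * ν : ℕ) : ℝ) ^ j = E ^ 2 * (A * ((ν : ℝ) / e) ^ j) := by
      rw [hE]
      push_cast
      rw [mul_pow, div_pow]
      field_simp
    rw [h8]
    calc E ^ 2 * (A * ((ν : ℝ) / e) ^ j) ≤ E ^ 2 * (ε * κ ^ 2 / (16 * B ^ 2)) :=
          mul_le_mul_of_nonneg_left hj1.le (by positivity)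
      _ = ε * (E ^ 2 * (κ ^ 2 / (16 * B ^ 2))) := by ring
      _ = ε * (x / 2) ^ 2 := by rw [h7]
      _ ≤ ε * (⌊x⌋₊ : ℝ) ^ 2 := mul_le_mul_of_nonneg_left h6 hε.le

section center
variable {K L Kb Ω : Type} [Field K] [Field L] [Field Kb] [Algebra K L] [Algebra K Kb]
  [Algebra L Kb] [NormedField Ω] [Algebra K Ω] [Algebra L Ω] [Algebra Kb Ω]
  [IsScalarTower K Kb Ω] [IsScalarTower L Kb Ω] {N : ℕ}
  {𝒰 : Ultrafilter ℕ} {s : ℕ → ℝ} {z : ℕ → Fin N → K} {i₀ : Fin N}

/-- The rate of convergence to the centre, in the chart at infinity. -/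
lemma IsCenter.exists_kappa (h : Lev Ω 𝒰 s z i₀) {q : Fin N → L}
    (hq : IsCenter Ω 𝒰 s z i₀ (fun i => algebraMap L Kb (q i))) :
    ∃ κ : ℝ, 0 < κ ∧ ∀ i, GeOrd 𝒰 s (fun n =>
      algebraMap K Ω (z n i / z n i₀) - algebraMap L Ω (q i)) κ := by
  classical
  have h1 : ∀ i, ∃ κ : ℝ, 0 < κ ∧ GeOrd 𝒰 s (fun n =>
      algebraMap K Ω (z n i / z n i₀) - algebraMap L Ω (q i)) κ := by
    intro i
    have hev : ∀ᶠ n in (𝒰 : Filter ℕ),
        ev Ω z (X i - C (algebraMap L Kb (q i)) * X i₀) n * (algebraMap K Ω (z n i₀))⁻¹ =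
          algebraMap K Ω (z n i / z n i₀) - algebraMap L Ω (q i) := by
      filter_upwards [h.top.1] with n hn
      rw [ev_sub, ev_mul, ev_C, ev_X, ev_X, map_div₀, ← IsScalarTower.algebraMap_apply L Kb Ω,
        sub_mul, mul_assoc, mul_inv_cancel₀ hn, mul_one, div_eq_mul_inv]
    rcases hq.2 i with h0 | ⟨β, hβ, hβ'⟩
    · refine ⟨1, one_pos, geOrd_of_eventually_zero ?_⟩
      filter_upwards [h0, hev] with n h2 h3
      rw [← h3, h2, zero_mul]
    · refine ⟨β + 1, by linarith, ?_⟩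
      have h2 := hβ'.mul h.top.inv
      rw [neg_neg] at h2
      exact ((h2.congr hev).ge h.hs)
  choose κ hκ hκ' using h1
  refine ⟨Finset.univ.inf' ⟨i₀, Finset.mem_univ _⟩ κ, ?_, fun i => ?_⟩
  · rw [Finset.lt_inf'_iff]
    exact fun i _ => hκ i
  · exact (hκ' i).mono h.hs (Finset.inf'_le _ (Finset.mem_univ i))

/-- Transcendence of the coordinate of maximal size. -/
lemma Lev.eval_ne (h : Lev Ω 𝒰 s z i₀) {p : Polynomial K} (hp : p ≠ 0) :
    ∀ᶠ n in (𝒰 : Filter ℕ), p.eval (z n i₀) ≠ 0 := by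
  classical
  have h1 := h.top.tendsto_norm_atTop h.hs (by norm_num)
  have h2 : ∀ᶠ n in (𝒰 : Filter ℕ), z n i₀ ∉ p.roots.toFinset := by
    have h3 : ∀ᶠ n in (𝒰 : Filter ℕ), ∀ x ∈ p.roots.toFinset, ‖algebraMap K Ω x‖ <
        ‖algebraMap K Ω (z n i₀)‖ := by
      rw [eventually_all_finset]
      intro x _
      exact h1.eventually_gt_atTop _
    filter_upwards [h3] with n hn hmem
    exact lt_irrefl _ (hn _ hmem)
  filter_upwards [h2] with n hn h0
  apply hn
  rw [Multiset.mem_toFinset, Polynomial.mem_roots hp]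
  exact h0

end center

end Pool.Agent.Helper65.RP
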