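import Pool.Agent.Helper65.RP.Defs3
import Pool.Agent.Helper87.RP.ExistsPoint
import Pool.Agent.Helper57.RP.KrullLe

/-!
# Dynamical Mordell-Lang for curves and regular polynomial maps: the proved modules, third part
-/

set_option autoImplicit false

namespace Pool.Agent.Helper65.RP

export Pool.Agent.Helper87.RP (exists_point)
export Pool.Agent.Helper57.RP (krull_le)

end Pool.Agent.Helper65.RP
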