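import Pool.Agent.Helper65.RP.Main3
import Pool.Agent.Helper65.RP.Api3

/-!
# Dynamical Mordell-Lang for curves and regular polynomial maps: complex points
-/

set_option autoImplicit false
set_option linter.unusedVariables false
set_option linter.style.haveILetI false

namespace Pool.Agent.Helper65.RP

open MvPolynomial Filter Topology

section maps
variable {K K' : Type} [Field K] [Field K'] [Algebra K K'] {N d : ℕ}

/-- Base change of the map. -/
noncomputable def mp (K' : Type) [Field K'] [Algebra K K'] (f : Fin N → MvPolynomial (Fin N) K) :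
    Fin N → MvPolynomial (Fin N) K' := fun i => map (algebraMap K K') (f i)

lemma iter_mp (f : Fin N → MvPolynomial (Fin N) K) (k : ℕ) (i : Fin N) :
    iter (mp K' f) k i = map (algebraMap K K') (iter f k i) := by
  induction k generalizing i with
  | zero => simp [iter]
  | succ k ih =>
    have h1 : iter (mp K' f) (k + 1) i = bind₁ (iter (mp K' f) k) (mp K' f i) := rfl
    have h2 : iter f (k + 1) i = bind₁ (iter f k) (f i) := rfl
    rw [h1, h2, map_bind₁]
    congr 2
    funext j
    exact ih j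

lemma lead_mp (f : Fin N → MvPolynomial (Fin N) K) :
    lead d (mp K' f) = mp K' (lead d f) := by
  funext i
  unfold lead mp
  ext m
  rw [coeff_homogeneousComponent, coeff_map, coeff_map, coeff_homogeneousComponent]
  split_ifs with h
  · rfl
  · rw [map_zero]

lemma aeval_mp {E : Type} [Field E] [Algebra K E] [Algebra K' E] [IsScalarTower K K' E]
    (x : Fin N → E) (P : MvPolynomial (Fin N) K) :
    aeval x (map (algebraMap K K') P) = aeval x P :=
  aeval_map_algebraMap K' x P

lemma aeval_iter {E : Type} [Field E] [Algebra K E] (f : Fin N → MvPolynomial (Fin N) K)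
    (x : Fin N → E) (k : ℕ) (i : Fin N) :
    aeval x (iter f k i) = (fun (x : Fin N → E) i => aeval x (f i))^[k] x i := by
  have h1 := eval_iter (f := mp E f) k x i
  rw [iter_mp, eval_map, ← aeval_def] at h1
  rw [h1]
  have h2 : (fun (x : Fin N → E) i => eval x (mp E f i)) = fun (x : Fin N → E) i =>
      aeval x (f i) := by
    funext x i
    unfold mp
    rw [eval_map, ← aeval_def]
  rw [h2]

/-- The orbit, for a map over `K` and a point over `E`. -/
lemma orb_mp {E : Type} [Field E] [Algebra K E] (f : Fin N → MvPolynomial (Fin N) K)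
    (a : Fin N → E) (n : ℕ) (i : Fin N) :
    orb (mp E f) a n i = aeval a (iter f n i) := by
  rw [aeval_iter]
  unfold orb
  have h2 : (fun (x : Fin N → E) i => eval x (mp E f i)) = fun (x : Fin N → E) i =>
      aeval x (f i) := by
    funext x i
    unfold mp
    rw [eval_map, ← aeval_def]
  rw [h2]

lemma aeval_orb {E : Type} [Field E] [Algebra K E] (f : Fin N → MvPolynomial (Fin N) K)
    (a : Fin N → E) (n : ℕ) (P : MvPolynomial (Fin N) K) :
    aeval (orb (mp E f) a n) P = aeval a (bind₁ (iter f n) P) := by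
  have h1 : orb (mp E f) a n = fun i => aeval a (iter f n i) := funext fun i => orb_mp f a n i
  rw [h1, aeval_bind₁]

lemma aeval_orb_add {E : Type} [Field E] [Algebra K E] (f : Fin N → MvPolynomial (Fin N) K)
    (a : Fin N → E) (n k : ℕ) (P : MvPolynomial (Fin N) K) :
    aeval (orb (mp E f) a (n + k)) P = aeval (orb (mp E f) a n) (bind₁ (iter f k) P) := by
  rw [aeval_orb, aeval_orb, bind₁_bind₁]
  congr 3
  funext i
  exact iter_add f n k i

lemma totalDegree_mapp {R S : Type} [Field R] [Field S] (φ : R →+* S)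
    (p : MvPolynomial (Fin N) R) : (map φ p).totalDegree ≤ p.totalDegree := by
  classical
  exact Finset.sup_mono (support_map_subset φ p)

lemma Regular.mp {Kb : Type} [Field Kb] [Algebra K Kb] {E : Type} [Field E] [Algebra K E]
    [Algebra K' E] [Algebra Kb E] [Algebra K' Kb] [IsScalarTower K K' E] [IsScalarTower K' Kb E]
    {f : Fin N → MvPolynomial (Fin N) K} (hf : Regular E d f) : Regular Kb d (mp K' f) := by
  refine ⟨fun i => (totalDegree_mapp _ _).trans (hf.1 i), fun y hy => ?_⟩
  have h1 : (fun i => algebraMap Kb E (y i)) = 0 := by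
    apply hf.2
    intro i
    have h2 := hy i
    have h3 : homogeneousComponent d (RP.mp K' f i) = map (algebraMap K K')
        (homogeneousComponent d (f i)) := congrFun (lead_mp (K' := K') (d := d) f) i
    rw [h3] at h2
    have h4 := congrArg (algebraMap Kb E) h2
    rw [map_zero, ← aeval_algebraMap_apply] at h4
    rw [← h4]
    exact (aeval_mp (K' := K') (fun i => algebraMap Kb E (y i)) _).symm
  funext i
  have h2 := congrFun h1 i
  exact (map_eq_zero (algebraMap Kb E)).1 h2

end maps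

section van
variable {K E : Type} [Field K] [Field E] [Algebra K E] {N : ℕ}

/-- The ideal over `K` of the polynomials that vanish at almost all points of a sequence of points
over `E`. -/
def vanE (𝒰 : Ultrafilter ℕ) (z : ℕ → Fin N → E) : Ideal (MvPolynomial (Fin N) K) where
  carrier := {F | ∀ᶠ n in (𝒰 : Filter ℕ), aeval (z n) F = 0}
  add_mem' := by
    intro F G hF hG
    filter_upwards [hF, hG] with n h1 h2
    rw [map_add, h1, h2, add_zero]
  zero_mem' := by simp
  smul_mem' := by
    intro F G hG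
    filter_upwards [hG] with n h1
    rw [smul_eq_mul, map_mul, h1, mul_zero]

lemma mem_vanE {𝒰 : Ultrafilter ℕ} {z : ℕ → Fin N → E} {F : MvPolynomial (Fin N) K} :
    F ∈ vanE 𝒰 z ↔ ∀ᶠ n in (𝒰 : Filter ℕ), aeval (z n) F = 0 := Iff.rfl

lemma vanE_isPrime (𝒰 : Ultrafilter ℕ) (z : ℕ → Fin N → E) :
    (vanE 𝒰 z : Ideal (MvPolynomial (Fin N) K)).IsPrime := by
  constructor
  · rw [Ideal.ne_top_iff_one, mem_vanE]
    intro h
    obtain ⟨n, hn⟩ := h.exists
    rw [map_one] at hn
    exact one_ne_zero hn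
  · intro F G h
    rw [mem_vanE] at h
    rw [mem_vanE, mem_vanE, ← Ultrafilter.eventually_or]
    filter_upwards [h] with n hn
    rw [map_mul, mul_eq_zero] at hn
    exact hn

/-- The set of indices `n` such that `x_n` lies on the variety of the ideal `vanE`. -/
lemma exists_closedE {f : Fin N → MvPolynomial (Fin N) K} {a : Fin N → E} {𝒰 : Ultrafilter ℕ}
    {k : ℕ} (h : ∀ P ∈ (vanE 𝒰 (orb (mp E f) a) : Ideal (MvPolynomial (Fin N) K)),
      bind₁ (iter f k) P ∈ (vanE 𝒰 (orb (mp E f) a) : Ideal (MvPolynomial (Fin N) K))) :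
    ∃ M : Set ℕ, M ∈ 𝒰 ∧ (∀ n ∈ M, n + k ∈ M) ∧
      ∀ n ∈ M, ∀ P ∈ (vanE 𝒰 (orb (mp E f) a) : Ideal (MvPolynomial (Fin N) K)),
        aeval (orb (mp E f) a n) P = 0 := by
  classical
  refine ⟨{n | ∀ P ∈ (vanE 𝒰 (orb (mp E f) a) : Ideal (MvPolynomial (Fin N) K)),
    aeval (orb (mp E f) a n) P = 0}, ?_, ?_, fun n hn => hn⟩
  · obtain ⟨t, ht⟩ := (inferInstance : IsNoetherianRing (MvPolynomial (Fin N) K)).noetherian
      (vanE 𝒰 (orb (mp E f) a))
    have h1 : ∀ᶠ n in (𝒰 : Filter ℕ), ∀ P ∈ t, aeval (orb (mp E f) a n) P = 0 := by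
      rw [eventually_all_finset]
      intro P hP
      have h2 : P ∈ (vanE 𝒰 (orb (mp E f) a) : Ideal (MvPolynomial (Fin N) K)) := by
        rw [← ht]
        exact Ideal.subset_span hP
      exact h2
    change ∀ᶠ n in (𝒰 : Filter ℕ), ∀ P ∈ (vanE 𝒰 (orb (mp E f) a) :
      Ideal (MvPolynomial (Fin N) K)), aeval (orb (mp E f) a n) P = 0
    filter_upwards [h1] with n hn P hP
    rw [← ht] at hP
    have h3 : Ideal.span (t : Set (MvPolynomial (Fin N) K)) ≤
        RingHom.ker (aeval (orb (mp E f) a n) : MvPolynomial (Fin N) K →ₐ[K] E) :=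
      Ideal.span_le.2 fun Q hQ => RingHom.mem_ker.2 (hn Q hQ)
    exact RingHom.mem_ker.1 (h3 hP)
  · intro n hn P hP
    rw [aeval_orb_add]
    exact hn _ (h P hP)

end van

/-- A prime ideal of coheight at most one contained in the ideal of an infinite orbit. -/
lemma prime_eq {K : Type} [Field K] {N : ℕ} {P Q : Ideal (MvPolynomial (Fin N) K)}
    [hP : P.IsPrime] [hQ : Q.IsPrime] (hPQ : P ≤ Q)
    (hdim : ringKrullDim (MvPolynomial (Fin N) K ⧸ P) ≤ 1) (hmax : ¬ Q.IsMaximal) : P = Q := by
  by_contra hne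
  apply hmax
  have h1 : Ring.KrullDimLE 1 (MvPolynomial (Fin N) K ⧸ P) := Ring.krullDimLE_iff.2 hdim
  have h2 : (Q.map (Ideal.Quotient.mk P)).IsPrime :=
    Ideal.map_isPrime_of_surjective Ideal.Quotient.mk_surjective (by rw [Ideal.mk_ker]; exact hPQ)
  have h3 : Q.map (Ideal.Quotient.mk P) ≠ ⊥ := by
    intro h
    apply hne
    refine le_antisymm hPQ fun x hx => ?_
    have h4 := Ideal.mem_map_of_mem (Ideal.Quotient.mk P) hx
    rw [h, Ideal.mem_bot, Ideal.Quotient.eq_zero_iff_mem] at h4
    exact h4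
  have h4 : (Q.map (Ideal.Quotient.mk P)).IsMaximal :=
    Ring.krullDimLE_one_iff_of_noZeroDivisors.1 h1 _ h3 h2
  have h5 : Q = (Q.map (Ideal.Quotient.mk P)).comap (Ideal.Quotient.mk P) := by
    rw [Ideal.comap_map_of_surjective _ Ideal.Quotient.mk_surjective, ← RingHom.ker_eq_comap_bot,
      Ideal.mk_ker, sup_eq_left.2 hPQ]
  rw [h5]
  exact Ideal.comap_isMaximal_of_surjective _ Ideal.Quotient.mk_surjective

/-- The ideal of an infinite orbit is not maximal. -/
lemma not_maximal {K K' : Type} [Field K] [Field K'] [Algebra K K'] {N : ℕ}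
    {f : Fin N → MvPolynomial (Fin N) K'} {b : Fin N → K'} (hb : (Set.range (orb f b)).Infinite)
    {𝒰 : Ultrafilter ℕ} (h𝒰 : (𝒰 : Filter ℕ) ≤ atTop) :
    ¬ (vanE 𝒰 (orb f b) : Ideal (MvPolynomial (Fin N) K)).IsMaximal := by
  classical
  intro hmax
  set Q : Ideal (MvPolynomial (Fin N) K) := vanE 𝒰 (orb f b) with hQ
  letI : Field (MvPolynomial (Fin N) K ⧸ Q) := Ideal.Quotient.field Q
  haveI : Module.Finite K (MvPolynomial (Fin N) K ⧸ Q) :=
    finite_of_finite_type_of_isJacobsonRing K (MvPolynomial (Fin N) K ⧸ Q)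
  have h1 : ∀ i : Fin N, ∃ p : Polynomial K, p ≠ 0 ∧ ∀ᶠ n in (𝒰 : Filter ℕ),
      Polynomial.aeval (orb f b n i) p = 0 := by
    intro i
    have h2 : IsAlgebraic K (Ideal.Quotient.mk Q (X i)) :=
      (Algebra.IsAlgebraic.isAlgebraic (R := K) _)
    obtain ⟨p, hp, hp0⟩ := h2
    refine ⟨p, hp, ?_⟩
    have h3 : Ideal.Quotient.mk Q (Polynomial.aeval (X i) p) = 0 := by
      rw [← hp0]
      exact (Polynomial.aeval_algHom_apply (Ideal.Quotient.mkₐ K Q) (X i) p).symm
    rw [Ideal.Quotient.eq_zero_iff_mem] at h3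
    have h4 : ∀ᶠ n in (𝒰 : Filter ℕ), aeval (orb f b n) (Polynomial.aeval (X i) p :
        MvPolynomial (Fin N) K) = 0 := h3
    filter_upwards [h4] with n hn
    rw [← Polynomial.aeval_algHom_apply, aeval_X] at hn
    exact hn
  choose p hp hp0 using h1
  have h2 : ∀ᶠ n in (𝒰 : Filter ℕ), ∀ i, orb f b n i ∈ ((p i).map (algebraMap K K')).roots.toFinset := by
    rw [eventually_all]
    intro i
    filter_upwards [hp0 i] with n hn
    rw [Multiset.mem_toFinset, Polynomial.mem_roots
      ((Polynomial.map_ne_zero_iff (algebraMap K K').injective).2 (hp i)), Polynomial.IsRoot.def,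
      Polynomial.eval_map, ← Polynomial.aeval_def]
    exact hn
  set B : Finset (Fin N → K') := Fintype.piFinset fun i =>
    ((p i).map (algebraMap K K')).roots.toFinset with hB
  have h3 : ∀ᶠ n in (𝒰 : Filter ℕ), ∃ x ∈ B, orb f b n = x := by
    filter_upwards [h2] with n hn
    exact ⟨_, Fintype.mem_piFinset.2 hn, rfl⟩
  obtain ⟨x, _, hx⟩ := exists_eventually_mem B h3
  obtain ⟨n₁, hn₁⟩ := hx.exists
  obtain ⟨n₂, hn₂, hlt⟩ := (hx.and (h𝒰 (eventually_gt_atTop n₁))).exists
  apply hb
  have hper : ∀ n, n₁ ≤ n → orb f b (n + (n₂ - n₁)) = orb f b n := by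
    intro n hn
    refine orb_period (n₀ := n₁) ?_ n hn
    rw [show n₁ + (n₂ - n₁) = n₂ by omega, hn₂, hn₁]
  have hfin : ∀ n, orb f b n ∈ (Finset.range n₂).image (orb f b) := by
    intro n
    induction n using Nat.strong_induction_on with
    | _ n ih =>
      by_cases h : n < n₂
      · exact Finset.mem_image_of_mem _ (Finset.mem_range.2 h)
      · have h4 := hper (n - (n₂ - n₁)) (by omega)
        rw [show n - (n₂ - n₁) + (n₂ - n₁) = n by omega] at h4
        rw [h4]
        exact ih _ (by omega)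
  refine ((Finset.range n₂).image (orb f b)).finite_toSet.subset ?_
  rintro _ ⟨n, rfl⟩
  exact hfin n

end Pool.Agent.Helper65.RP
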