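import Pool.Agent.Helper65.RP.Complex2

/-!
# Dynamical Mordell-Lang for curves and regular polynomial maps: projective space
-/

set_option autoImplicit false
set_option linter.unusedVariables false
set_option linter.style.haveILetI false

namespace Pool.Agent.Helper65.RP

open MvPolynomial Filter Topology

section inf
variable {K : Type} [Field K] {N : ℕ}

/-- Restriction to the hyperplane `X_0 = 0`. -/
noncomputable def rst : MvPolynomial (Fin (N + 1)) K →ₐ[K] MvPolynomial (Fin N) K :=
  aeval (Fin.cons 0 X : Fin (N + 1) → MvPolynomial (Fin N) K)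

lemma deh_monomial (m : Fin (N + 1) →₀ ℕ) (c : K) :
    deh (monomial m c : MvPolynomial (Fin (N + 1)) K) = monomial m.tail c := by
  unfold deh
  rw [aeval_monomial, Finsupp.prod_fintype _ _ (by simp), Fin.prod_univ_succ]
  simp only [Fin.cons_zero, one_pow, one_mul, Fin.cons_succ]
  rw [monomial_eq, Finsupp.prod_fintype _ _ (by simp)]
  rfl

lemma rst_monomial (m : Fin (N + 1) →₀ ℕ) (c : K) :
    rst (monomial m c : MvPolynomial (Fin (N + 1)) K) =
      if m 0 = 0 then monomial m.tail c else 0 := by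
  unfold rst
  rw [aeval_monomial, Finsupp.prod_fintype _ _ (by simp), Fin.prod_univ_succ]
  simp only [Fin.cons_zero, Fin.cons_succ]
  split_ifs with h
  · rw [h, pow_zero, one_mul, monomial_eq, Finsupp.prod_fintype _ _ (by simp)]
    rfl
  · rw [zero_pow h, zero_mul, mul_zero]

lemma degree_tail (m : Fin (N + 1) →₀ ℕ) : m.degree = m 0 + m.tail.degree := by
  rw [Finsupp.degree_eq_sum, Finsupp.degree_eq_sum, Fin.sum_univ_succ]
  rfl

lemma deh_sum (p : MvPolynomial (Fin (N + 1)) K) :
    deh p = ∑ m ∈ p.support, monomial m.tail (p.coeff m) := by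
  conv_lhs => rw [p.as_sum]
  unfold deh
  rw [map_sum]
  exact Finset.sum_congr rfl fun m _ => deh_monomial m _

lemma rst_sum (p : MvPolynomial (Fin (N + 1)) K) :
    rst p = ∑ m ∈ p.support, if m 0 = 0 then monomial m.tail (p.coeff m) else 0 := by
  conv_lhs => rw [p.as_sum]
  rw [map_sum]
  exact Finset.sum_congr rfl fun m _ => rst_monomial m _

lemma degree_of_hom {p : MvPolynomial (Fin (N + 1)) K} {d : ℕ} (hp : p.IsHomogeneous d)
    {m : Fin (N + 1) →₀ ℕ} (hm : m ∈ p.support) : m.degree = d := by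
  have h := hp (mem_support_iff.1 hm)
  rw [← h, Finsupp.degree_eq_weight_one]
  rfl

lemma totalDegree_deh {p : MvPolynomial (Fin (N + 1)) K} {d : ℕ} (hp : p.IsHomogeneous d) :
    (deh p).totalDegree ≤ d := by
  rw [deh_sum]
  refine totalDegree_finsetSum_le fun m hm => ?_
  refine (totalDegree_monomial_le _ _).trans ?_
  have h1 := degree_of_hom hp hm
  have h2 := degree_tail m
  have h3 : m.tail.degree ≤ d := by omega
  exact h3

lemma homogeneousComponent_deh {p : MvPolynomial (Fin (N + 1)) K} {d : ℕ}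
    (hp : p.IsHomogeneous d) : homogeneousComponent d (deh p) = rst p := by
  classical
  rw [deh_sum, rst_sum, map_sum]
  refine Finset.sum_congr rfl fun m hm => ?_
  have h1 := degree_of_hom hp hm
  have h2 := degree_tail m
  have h3 : (monomial m.tail (p.coeff m) : MvPolynomial (Fin N) K).IsHomogeneous
      m.tail.degree := isHomogeneous_monomial _ rfl
  rw [homogeneousComponent_of_mem h3]
  by_cases h : m 0 = 0
  · rw [if_pos h, if_pos (by omega)]
  · rw [if_neg h, if_neg (by omega)]

variable {E : Type} [Field E] [Algebra K E]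

lemma aeval_deh (x : Fin N → E) (p : MvPolynomial (Fin (N + 1)) K) :
    aeval x (deh p) = aeval (Fin.cons 1 x : Fin (N + 1) → E) p := by
  unfold deh
  rw [← AlgHom.comp_apply, comp_aeval]
  congr 2
  funext i
  refine Fin.cases ?_ (fun j => ?_) i
  · simp
  · simp

lemma aeval_rst (x : Fin N → E) (p : MvPolynomial (Fin (N + 1)) K) :
    aeval x (rst p) = aeval (Fin.cons 0 x : Fin (N + 1) → E) p := by
  unfold rst
  rw [← AlgHom.comp_apply, comp_aeval]
  congr 2
  funext i
  refine Fin.cases ?_ (fun j => ?_) i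
  · simp
  · simp

lemma aeval_smul_hom {m e : ℕ} {P : MvPolynomial (Fin m) K} (hP : P.IsHomogeneous e) (u : E)
    (y : Fin m → E) : aeval (u • y) P = u ^ e * aeval y P :=
  Pool.Agent.Helper47.RP.aeval_mul_hom hP u y

lemma rst_map {K' : Type} [Field K'] [Algebra K K'] (p : MvPolynomial (Fin (N + 1)) K) :
    rst (map (algebraMap K K') p) = map (algebraMap K K') (rst p) := by
  induction p using MvPolynomial.induction_on with
  | C a =>
    unfold rst
    simp
  | add p q hp hq => simp only [map_add, hp, hq]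
  | mul_X p i hp =>
    simp only [map_mul, hp, map_X]
    congr 1
    unfold rst
    refine Fin.cases ?_ (fun j => ?_) i
    · simp
    · simp

lemma deh_map {K' : Type} [Field K'] [Algebra K K'] (p : MvPolynomial (Fin (N + 1)) K) :
    deh (map (algebraMap K K') p) = map (algebraMap K K') (deh p) := by
  unfold deh
  induction p using MvPolynomial.induction_on with
  | C a => simp
  | add p q hp hq => simp only [map_add, hp, hq]
  | mul_X p i hp =>
    simp only [map_mul, hp, map_X]
    congr 1
    refine Fin.cases ?_ (fun j => ?_) i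
    · simp
    · simp

lemma rst_C (c : K) : rst (C c : MvPolynomial (Fin (N + 1)) K) = C c := by
  unfold rst
  rw [aeval_C, algebraMap_eq]

lemma rst_X_zero : rst (X 0 : MvPolynomial (Fin (N + 1)) K) = 0 := by
  unfold rst
  rw [aeval_X, Fin.cons_zero]

lemma rst_X_succ (i : Fin N) : rst (X i.succ : MvPolynomial (Fin (N + 1)) K) = X i := by
  unfold rst
  rw [aeval_X, Fin.cons_succ]

lemma rst_surjective : Function.Surjective (rst : MvPolynomial (Fin (N + 1)) K →ₐ[K] _) := by
  intro p
  refine ⟨rename Fin.succ p, ?_⟩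
  unfold rst
  rw [aeval_rename]
  have h : ((Fin.cons 0 X : Fin (N + 1) → MvPolynomial (Fin N) K) ∘ Fin.succ) = X := by
    funext i
    simp
  rw [h, aeval_X_left_apply]

end inf

section main
variable {K : Type} [Field K] [NumberField K] [Algebra K ℂ] {N d : ℕ}
  {F : Fin (N + 1) → MvPolynomial (Fin (N + 1)) K}

/-- The affine part of the map. -/
noncomputable def aff (F : Fin (N + 1) → MvPolynomial (Fin (N + 1)) K) :
    Fin N → MvPolynomial (Fin N) K := fun i => deh (F i.succ)

lemma iter_zero (hF0 : F 0 = X 0 ^ d) (k : ℕ) : iter F k 0 = X 0 ^ d ^ k := by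
  induction k with
  | zero => simp [iter]
  | succ k ih =>
    have h1 : iter F (k + 1) 0 = bind₁ (iter F k) (F 0) := rfl
    rw [h1, hF0, map_pow, bind₁_X_right, ih, ← pow_mul, pow_succ]

lemma lead_aff (hF : ∀ i, (F i).IsHomogeneous d) : lead d (aff F) = fun i => rst (F i.succ) := by
  funext i
  exact homogeneousComponent_deh (hF i.succ)

lemma rst_iter (hd : 1 ≤ d) (hF : ∀ i, (F i).IsHomogeneous d) (hF0 : F 0 = X 0 ^ d) (k : ℕ)
    (i : Fin N) : rst (iter F k i.succ) = iter (lead d (aff F)) k i := by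
  induction k generalizing i with
  | zero =>
    unfold rst
    simp [iter]
  | succ k ih =>
    have h1 : iter F (k + 1) i.succ = bind₁ (iter F k) (F i.succ) := rfl
    have h2 : iter (lead d (aff F)) (k + 1) i =
      bind₁ (iter (lead d (aff F)) k) (lead d (aff F) i) := rfl
    rw [h1, h2]
    have h3 : lead d (aff F) i = rst (F i.succ) := congrFun (lead_aff hF) i
    rw [h3]
    unfold bind₁
    rw [← AlgHom.comp_apply, comp_aeval]
    unfold rst
    rw [← AlgHom.comp_apply, comp_aeval]
    congr 2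
    funext j
    refine Fin.cases ?_ (fun l => ?_) j
    · have h6 : d ^ k ≠ 0 := (Nat.pow_pos (by omega : 0 < d)).ne'
      rw [iter_zero hF0, Fin.cons_zero, map_pow, aeval_X, Fin.cons_zero, zero_pow h6, map_zero]
    · have h5 := ih l
      unfold rst at h5
      simp only [Fin.cons_succ, aeval_X]
      exact h5

/-- The dynamical Mordell-Lang property for curves. -/
theorem main_proj (hd : 2 ≤ d) (hF : ∀ i, (F i).IsHomogeneous d) (hF0 : F 0 = X 0 ^ d)
    (hnz : ∀ x : Fin (N + 1) → ℂ, (∀ i, aeval x (F i) = 0) → x = 0)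
    (S : Set (MvPolynomial (Fin (N + 1)) K)) (hS : ∀ g ∈ S, ∃ e : ℕ, g.IsHomogeneous e)
    (hfin : ∃ B : Finset (Fin (N + 1) → ℂ), ∀ x : Fin (N + 1) → ℂ, x ≠ 0 → x 0 = 0 →
      (∀ g ∈ S, aeval x g = 0) → ∃ b ∈ B, ∃ c : ℂ, x = c • b)
    (hM : ∀ y : Fin (N + 1) → ℂ, y ≠ 0 → y 0 = 0 → (∀ g ∈ S, aeval y g = 0) →
      ∀ (k : ℕ) (c : ℂ), 1 ≤ k → (∀ i, aeval y (iter F k i) = c * y i) → ∀ n : ℕ,
      Module.finrank ℂ (MvPolynomial (Fin (N + 1)) ℂ ⧸
        (Ideal.span {X 0} ⊔ fibreIdeal (iter F k) y ⊔ ptIdeal y ^ n)) < d ^ k)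
    (a : Fin (N + 1) → ℂ) (ha : a ≠ 0) :
    ∃ T : Finset (ℕ × ℕ),
      {n : ℕ | ∀ g ∈ S, aeval ((fun (x : Fin (N + 1) → ℂ) i => aeval x (F i))^[n] a) g = 0} =
        {n : ℕ | ∃ q ∈ T, ∃ k : ℕ, n = q.1 * k + q.2} := by
  classical
  obtain ⟨B, hB⟩ := hfin
  set Φ : (Fin (N + 1) → ℂ) → Fin (N + 1) → ℂ := fun x i => aeval x (F i) with hΦ
  have hΦs : ∀ (u : ℂ) (x : Fin (N + 1) → ℂ), Φ (u • x) = u ^ d • Φ x := by
    intro u x
    funext i
    exact aeval_smul_hom (hF i) u x
  have hΦnz : ∀ x, x ≠ 0 → Φ x ≠ 0 := by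
    intro x hx h0
    exact hx (hnz x fun i => congrFun h0 i)
  have hnzn : ∀ n, Φ^[n] a ≠ 0 := by
    intro n
    induction n with
    | zero => exact ha
    | succ n ih =>
      rw [Function.iterate_succ_apply']
      exact hΦnz _ ih
  have hSs : ∀ (u : ℂ) (x : Fin (N + 1) → ℂ), u ≠ 0 →
      ((∀ g ∈ S, aeval (u • x) g = 0) ↔ ∀ g ∈ S, aeval x g = 0) := by
    intro u x hu
    refine forall₂_congr fun g hg => ?_
    obtain ⟨e, he⟩ := hS g hg
    rw [aeval_smul_hom he, mul_eq_zero, or_iff_right (pow_ne_zero e hu)]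
  by_cases ha0 : a 0 = 0
  · -- the orbit lies in the hyperplane
    have h0 : ∀ n, (Φ^[n] a) 0 = 0 := by
      intro n
      induction n with
      | zero => exact ha0
      | succ n ih =>
        rw [Function.iterate_succ_apply']
        change aeval (Φ^[n] a) (F 0) = 0
        rw [hF0, map_pow, aeval_X, ih, zero_pow (by omega)]
    apply ap_of_ultra
    intro 𝒰 h𝒰 h𝒩
    have h1 : ∀ᶠ n in (𝒰 : Filter ℕ), ∃ b ∈ B, ∃ c : ℂ, Φ^[n] a = c • b := by
      have h2 : ∀ᶠ n in (𝒰 : Filter ℕ), ∀ g ∈ S, aeval (Φ^[n] a) g = 0 := h𝒩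
      filter_upwards [h2] with n hn
      exact hB _ (hnzn n) (h0 n) hn
    obtain ⟨b, _, hb⟩ := exists_eventually_mem B h1
    obtain ⟨n₁, c₁, hn₁⟩ := hb.exists
    obtain ⟨n₂, ⟨c₂, hn₂⟩, hlt⟩ := (hb.and (h𝒰 (eventually_gt_atTop n₁))).exists
    have hc₁ : c₁ ≠ 0 := by
      rintro rfl
      rw [zero_smul] at hn₁
      exact hnzn n₁ hn₁
    have hc₂ : c₂ ≠ 0 := by
      rintro rfl
      rw [zero_smul] at hn₂
      exact hnzn n₂ hn₂
    have hper : ∀ n, n₁ ≤ n → ∃ u : ℂ, u ≠ 0 ∧ Φ^[n + (n₂ - n₁)] a = u • Φ^[n] a := by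
      intro n hn
      induction n, hn using Nat.le_induction with
      | base =>
        refine ⟨c₂ / c₁, div_ne_zero hc₂ hc₁, ?_⟩
        rw [show n₁ + (n₂ - n₁) = n₂ by omega, hn₂, hn₁, smul_smul, div_mul_cancel₀ _ hc₁]
      | succ n hn ih =>
        obtain ⟨u, hu, h⟩ := ih
        refine ⟨u ^ d, pow_ne_zero d hu, ?_⟩
        rw [show n + 1 + (n₂ - n₁) = n + (n₂ - n₁) + 1 by omega, Function.iterate_succ_apply',
          Function.iterate_succ_apply', h, hΦs]
    refine ⟨{n | ∀ g ∈ S, aeval (Φ^[n] a) g = 0} ∩ Set.Ici n₁, Set.inter_subset_left,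
      inter_mem h𝒩 (h𝒰 (Ici_mem_atTop n₁)), n₂ - n₁, by omega, ?_⟩
    rintro n ⟨hn, hn1⟩
    refine ⟨?_, Set.mem_Ici.2 (le_trans hn1 (Nat.le_add_right _ _))⟩
    obtain ⟨u, hu, h⟩ := hper n hn1
    change ∀ g ∈ S, aeval (Φ^[n + (n₂ - n₁)] a) g = 0
    rw [h]
    exact (hSs u _ hu).2 hn
  · -- affine points
    set f := aff F with hf
    set b : Fin N → ℂ := fun i => (a 0)⁻¹ * a i.succ with hb
    have horb : ∀ n, ∃ u : ℂ, u ≠ 0 ∧ Φ^[n] a = u • (Fin.cons 1 (orb (mp ℂ f) b n) :
        Fin (N + 1) → ℂ) := by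
      intro n
      induction n with
      | zero =>
        refine ⟨a 0, ha0, ?_⟩
        funext i
        refine Fin.cases ?_ (fun j => ?_) i
        · simp
        · change a j.succ = a 0 * (Fin.cons 1 b : Fin (N + 1) → ℂ) j.succ
          rw [Fin.cons_succ, hb, mul_inv_cancel_left₀ ha0]
      | succ n ih =>
        obtain ⟨u, hu, h⟩ := ih
        refine ⟨u ^ d, pow_ne_zero d hu, ?_⟩
        rw [Function.iterate_succ_apply', h, hΦs]
        congr 1
        funext i
        refine Fin.cases ?_ (fun j => ?_) i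
        · change aeval _ (F 0) = _
          rw [hF0, map_pow, aeval_X, Fin.cons_zero, Fin.cons_zero, one_pow]
        · change aeval _ (F j.succ) = _
          rw [← aeval_deh, Fin.cons_succ, orb_succ]
          change _ = eval _ (map _ (deh (F j.succ)))
          rw [eval_map, ← aeval_def]
    have hreg : Regular ℂ d f := by
      refine ⟨fun i => totalDegree_deh (hF i.succ), fun y hy => ?_⟩
      have h1 := hnz (Fin.cons 0 y) (by
        intro i
        refine Fin.cases ?_ (fun j => ?_) i
        · rw [hF0, map_pow, aeval_X, Fin.cons_zero, zero_pow (by omega)]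
        · have h2 := hy j
          rw [hf] at h2
          unfold aff at h2
          rw [homogeneousComponent_deh (hF j.succ), aeval_rst] at h2
          exact h2)
      funext i
      have h2 := congrFun h1 i.succ
      simpa using h2
    obtain ⟨T, hT⟩ := main_complex hd hreg (deh '' S) (by
      intro K' _ _ _ _ _
      have h1 := krull_le (K := K') (MvPolynomial.map (algebraMap K K') '' S) (by
        rintro _ ⟨g, hg, rfl⟩
        obtain ⟨e, he⟩ := hS g hg
        exact ⟨e, he.map _⟩) B (by
        intro x hx hx0 hxS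
        refine hB x hx hx0 fun g hg => ?_
        have h2 := hxS _ ⟨g, hg, rfl⟩
        rw [aeval_map_algebraMap] at h2
        exact h2)
      have h2 : deh '' (MvPolynomial.map (algebraMap K K') '' S) =
          MvPolynomial.map (algebraMap K K') '' (deh '' S) := by
        rw [Set.image_image, Set.image_image]
        exact Set.image_congr fun g _ => deh_map g
      rw [h2] at h1
      exact h1) (by
      intro y hy hyS k c hk hc n
      have hY0 : (Fin.cons 0 y : Fin (N + 1) → ℂ) ≠ 0 := by
        intro h0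
        apply hy
        funext i
        have h2 := congrFun h0 i.succ
        simpa using h2
      have hYS : ∀ g ∈ S, aeval (Fin.cons 0 y : Fin (N + 1) → ℂ) g = 0 := by
        intro g hg
        obtain ⟨e, he⟩ := hS g hg
        rw [← aeval_rst, ← homogeneousComponent_deh he]
        have h1 := hyS _ ⟨g, hg, rfl⟩
        by_cases hlt : (deh g).totalDegree < e
        · rw [homogeneousComponent_eq_zero _ _ hlt, map_zero]
        · have h2 : (deh g).totalDegree = e := le_antisymm (totalDegree_deh he) (not_lt.1 hlt)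
          rw [h2] at h1
          exact h1
      have hYc : ∀ i, aeval (Fin.cons 0 y : Fin (N + 1) → ℂ) (iter F k i) =
          c * (Fin.cons 0 y : Fin (N + 1) → ℂ) i := by
        intro i
        refine Fin.cases ?_ (fun j => ?_) i
        · rw [iter_zero hF0, map_pow, aeval_X, Fin.cons_zero, mul_zero,
            zero_pow (Nat.pow_pos (by omega : 0 < d)).ne']
        · rw [← aeval_rst, rst_iter (by omega) hF hF0, Fin.cons_succ]
          exact hc j
      have hbig := hM _ hY0 (by simp) hYS k c hk hYc n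
      refine lt_of_le_of_lt ?_ hbig
      set I := Ideal.span {X 0} ⊔ fibreIdeal (iter F k) (Fin.cons 0 y : Fin (N + 1) → ℂ) ⊔
        ptIdeal (Fin.cons 0 y : Fin (N + 1) → ℂ) ^ n with hI
      set J := fibreIdeal (iter (lead d f) k) y ⊔ ptIdeal y ^ n with hJ
      have hle : I.map (rst : MvPolynomial (Fin (N + 1)) ℂ →ₐ[ℂ] _) ≤ J := by
        rw [hI, Ideal.map_sup, Ideal.map_sup, Ideal.map_pow]
        refine sup_le (sup_le ?_ ?_) ?_
        · rw [Ideal.map_span, Set.image_singleton, Ideal.span_le, Set.singleton_subset_iff]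
          rw [SetLike.mem_coe]
          change rst (X 0) ∈ J
          rw [rst_X_zero]
          exact J.zero_mem
        · unfold fibreIdeal
          rw [Ideal.map_span, Ideal.span_le]
          rintro _ ⟨_, ⟨i, rfl⟩, rfl⟩
          rw [SetLike.mem_coe]
          change rst (map (algebraMap K ℂ) (iter F k i) -
            C (aeval (Fin.cons 0 y : Fin (N + 1) → ℂ) (iter F k i))) ∈ J
          refine Fin.cases ?_ (fun j => ?_) i
          · have h3 : d ^ k ≠ 0 := (Nat.pow_pos (by omega : 0 < d)).ne'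
            rw [iter_zero hF0, map_sub, map_pow, map_pow, map_pow, map_X, rst_X_zero, rst_C,
              aeval_X, Fin.cons_zero, zero_pow h3, zero_pow h3, C_0, sub_zero]
            exact J.zero_mem
          · have h4 : aeval (Fin.cons 0 y : Fin (N + 1) → ℂ) (iter F k j.succ) =
                aeval y (iter (lead d f) k j) := by
              rw [← aeval_rst, rst_iter (by omega) hF hF0]
            have h5 : (rst (map (algebraMap K ℂ) (iter F k j.succ)) : MvPolynomial (Fin N) ℂ) =
                map (algebraMap K ℂ) (iter (lead d f) k j) := by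
              rw [rst_map, rst_iter (by omega) hF hF0]
            rw [map_sub, h5, rst_C, h4]
            exact Ideal.mem_sup_left (Ideal.subset_span ⟨j, rfl⟩)
        · refine le_trans (Ideal.pow_right_mono ?_ n) le_sup_right
          unfold ptIdeal
          rw [Ideal.map_span, Ideal.span_le]
          rintro _ ⟨_, ⟨i, rfl⟩, rfl⟩
          rw [SetLike.mem_coe]
          change rst (X i - C ((Fin.cons 0 y : Fin (N + 1) → ℂ) i)) ∈ _
          refine Fin.cases ?_ (fun j => ?_) i
          · rw [map_sub, rst_X_zero, Fin.cons_zero, C_0, map_zero, sub_zero]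
            exact Submodule.zero_mem _
          · rw [map_sub, rst_X_succ, Fin.cons_succ, rst_C]
            exact Ideal.subset_span ⟨j, rfl⟩
      haveI : FiniteDimensional ℂ (MvPolynomial (Fin (N + 1)) ℂ ⧸ I) :=
        Pool.Agent.Helper47.RP.finite_quot _ _ _
      set ψ : (MvPolynomial (Fin (N + 1)) ℂ ⧸ I) →ₐ[ℂ] (MvPolynomial (Fin N) ℂ ⧸ J) :=
        Ideal.quotientMapₐ J rst (Ideal.map_le_iff_le_comap.1 hle) with hψ
      have hsurj : Function.Surjective ψ := by
        intro x
        obtain ⟨p, rfl⟩ := Ideal.Quotient.mk_surjective x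
        obtain ⟨r, rfl⟩ := rst_surjective p
        exact ⟨Ideal.Quotient.mk I r, rfl⟩
      exact LinearMap.finrank_le_finrank_of_surjective (f := ψ.toLinearMap) hsurj) b
    refine ⟨T, ?_⟩
    rw [← hT]
    ext n
    obtain ⟨u, hu, h⟩ := horb n
    rw [Set.mem_ofPred_eq, Set.mem_ofPred_eq, h, hSs u _ hu]
    constructor
    · rintro h1 _ ⟨g, hg, rfl⟩
      rw [aeval_deh]
      exact h1 g hg
    · intro h1 g hg
      rw [← aeval_deh]
      exact h1 _ ⟨g, hg, rfl⟩

end main

end Pool.Agent.Helper65.RP
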