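import Pool.Agent.Helper61.RP.Growth
import Pool.Agent.Helper32.RP.OrbitGrowth
import Pool.Agent.Helper12.RP.IntegralStep
import Pool.Agent.Helper76.RP.Iter
import Pool.Agent.Helper39.RP.Ultra
import Pool.Agent.Helper35.RP.AlgDep
import Pool.Agent.Helper57.RP.Period
import Pool.Agent.Helper45.RP.Group
import Pool.Agent.Helper74.RP.Center
import Pool.Agent.Helper62.RP.Lower
import Pool.Agent.Helper31.RP.Upper
import Pool.Agent.Helper38.RP.Lev
import Pool.Agent.Helper65.RP.Ord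

/-!
# Dynamical Mordell-Lang for curves and regular polynomial maps: the proved modules
-/

set_option autoImplicit false

namespace Pool.Agent.Helper65.RP

open MvPolynomial Filter Topology

export Pool.Agent.Helper61.RP (growth_step)
export Pool.Agent.Helper32.RP (orbit_growth)
export Pool.Agent.Helper12.RP (integral_step)
export Pool.Agent.Helper76.RP (eval_iter orb_add regular_iter jac_iter)
export Pool.Agent.Helper39.RP (ap_of_ultra)
export Pool.Agent.Helper35.RP (alg_dep)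
export Pool.Agent.Helper57.RP (exists_period)
export Pool.Agent.Helper45.RP (exists_group exists_const)
export Pool.Agent.Helper74.RP (center_map center_mem)
export Pool.Agent.Helper62.RP (lower_bound)
export Pool.Agent.Helper38.RP (exists_lev exists_grow)

section D
variable {K Kb Ω : Type} [Field K] [Field Kb] [Algebra K Kb] [IsAlgClosure K Kb]
  [NormedField Ω] [IsAlgClosed Ω] [Algebra K Ω] [Algebra Kb Ω] [IsScalarTower K Kb Ω] {N : ℕ}
  {𝒰 : Ultrafilter ℕ} {s : ℕ → ℝ} {z : ℕ → Fin N → K} {i₀ : Fin N}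

/-- D3 -/
theorem exists_center (h : Lev Ω 𝒰 s z i₀) :
    ∃ q : Fin N → Kb, IsCenter Ω 𝒰 s z i₀ q :=
  Pool.Agent.Helper74.RP.exists_center_of h (exists_group h) fun _ _ _ hp hq =>
    exists_const h hp hq

/-- D4 -/
theorem change_index {i₁ : Fin N} (h : Lev Ω 𝒰 s z i₁) {q₁ : Fin N → Kb}
    (hq : IsCenter Ω 𝒰 s z i₁ q₁) (q : Fin N → Kb) (c : Kb) (hc : c ≠ 0)
    (hqq : ∀ i, q₁ i = c * q i) (hq0 : q i₀ = 1) :
    Lev Ω 𝒰 s z i₀ ∧ IsCenter Ω 𝒰 s z i₀ q :=
  Pool.Agent.Helper74.RP.change_index_of h (exists_group h) hq q c hc hqq hq0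

/-- F -/
theorem upper_bound (h : Lev Ω 𝒰 s z i₀) {Λ : Type} [Fintype Λ] (Z : PD K Ω Λ) {g : Λ → ℝ}
    (hg : Grow Z g 𝒰 s z) {a : ℕ} (ha : 0 < a)
    (hval : ∀ p : MvPolynomial (Fin N) Kb, (∀ᶠ n in (𝒰 : Filter ℕ), ev Ω z p n = 0) ∨
        ∃ k : ℤ, HasOrd 𝒰 s (ev Ω z p) ((k : ℝ) / a)) (D : ℕ) :
    (rho (van 𝒰 z) D : ℝ) ≤ 2 * a * Z.bd g * D + 1 :=
  Pool.Agent.Helper31.RP.upper_bound_of h Z hg ha hval (fun _ _ _ hp hq => exists_const h hp hq) D

end D

end Pool.Agent.Helper65.RP
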