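import Pool.Agent.Helper65.RP.Ending
import Pool.Agent.Helper47.RP.MultSlice
import Pool.Agent.Helper57.RP.Kappa
import Pool.Agent.Helper74.RP.Chain
import Pool.Agent.Helper45.RP.RhoInf
import Pool.Agent.Helper39.RP.FiniteLevels
import Pool.Agent.Helper8.RP.ExistsIdeal
import Pool.Agent.Helper33.RP.ExistsPD

/-!
# Dynamical Mordell-Lang for curves and regular polynomial maps: the proved modules, second part
-/

set_option autoImplicit false

namespace Pool.Agent.Helper65.RP

export Pool.Agent.Helper47.RP (mult_slice)
export Pool.Agent.Helper57.RP (exists_kappa)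
export Pool.Agent.Helper74.RP (finrank_chain finite_quot_pow)
export Pool.Agent.Helper45.RP (rho_inf_le)
export Pool.Agent.Helper39.RP (finite_levels)
export Pool.Agent.Helper8.RP (exists_ideal)
export Pool.Agent.Helper33.RP (exists_pd)

end Pool.Agent.Helper65.RP
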