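import Pool.Agent.Helper65.RP.Complex
import Pool.Agent.Helper47.RP.MultSlice

/-!
# Dynamical Mordell-Lang for curves and regular polynomial maps: complex points, main theorem
-/

set_option autoImplicit false
set_option linter.unusedVariables false
set_option linter.style.haveILetI false

namespace Pool.Agent.Helper65.RP

open MvPolynomial Filter Topology

/-- Base change of the local multiplicity. -/
lemma MultLT.mp {K K' Kb E : Type} [Field K] [Field K'] [Field Kb] [Field E] [Algebra K K']
    [Algebra K E] [Algebra K' E] [Algebra K' Kb] [Algebra Kb E] [IsScalarTower K K' E]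
    [IsScalarTower K' Kb E] {N e : ℕ} {H : Fin N → MvPolynomial (Fin N) K} {y : Fin N → Kb}
    (h : MultLT H (fun i => algebraMap Kb E (y i)) e) : MultLT (RP.mp K' H) y e := by
  intro n
  have h1 := h n
  have h2 : fibreIdeal H (fun i => algebraMap Kb E (y i)) ⊔
      ptIdeal (fun i => algebraMap Kb E (y i)) ^ n =
      (fibreIdeal (RP.mp K' H) y ⊔ ptIdeal y ^ n).map (MvPolynomial.map (algebraMap Kb E)) := by
    rw [Ideal.map_sup, Ideal.map_pow]
    congr 1
    · unfold fibreIdeal
      rw [Ideal.map_span, ← Set.range_comp]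
      congr 2
      funext i
      simp only [Function.comp_apply, map_sub, map_C]
      congr 1
      · unfold RP.mp
        rw [MvPolynomial.map_map, MvPolynomial.map_map, ← IsScalarTower.algebraMap_eq,
          ← IsScalarTower.algebraMap_eq]
      · congr 1
        rw [← aeval_algebraMap_apply]
        exact (aeval_mp (K' := K') (fun i => algebraMap Kb E (y i)) _).symm
    · congr 1
      unfold ptIdeal
      rw [Ideal.map_span, ← Set.range_comp]
      congr 2
      funext i
      simp only [Function.comp_apply, map_sub, map_C, map_X]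
  rw [h2, Pool.Agent.Helper47.RP.finrank_map] at h1
  exact h1

section main
variable {K : Type} [Field K] [NumberField K] [Algebra K ℂ] {N d : ℕ}
  {f : Fin N → MvPolynomial (Fin N) K}

/-- The points at infinity of the variety of a set of polynomials. -/
def AtInf (S : Set (MvPolynomial (Fin N) K)) (y : Fin N → ℂ) : Prop :=
  ∀ F ∈ S, aeval y (homogeneousComponent F.totalDegree F) = 0

/-- The key step for complex points. -/
theorem key_complex (hd : 2 ≤ d) (hf : Regular ℂ d f) (S : Set (MvPolynomial (Fin N) K))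
    (hdim : ∀ (K' : Type) [Field K'] [NumberField K'] [Algebra K K'] [Algebra K' ℂ]
      [IsScalarTower K K' ℂ],
      ringKrullDim (MvPolynomial (Fin N) K' ⧸
        Ideal.span (MvPolynomial.map (algebraMap K K') '' S)) ≤ 1)
    (hmul : ∀ y : Fin N → ℂ, y ≠ 0 → AtInf S y →
      ∀ (k : ℕ) (c : ℂ), 1 ≤ k → (∀ i, aeval y (iter (lead d f) k i) = c * y i) →
      MultLT (iter (lead d f) k) y (d ^ k))
    (a : Fin N → ℂ) (hinf : (Set.range (orb (mp ℂ f) a)).Infinite) (𝒰 : Ultrafilter ℕ)
    (h𝒰 : (𝒰 : Filter ℕ) ≤ atTop)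
    (hS : ∀ᶠ n in (𝒰 : Filter ℕ), ∀ F ∈ S, aeval (orb (mp ℂ f) a n) F = 0) :
    ∃ k, 1 ≤ k ∧ ∀ P ∈ (vanE 𝒰 (orb (mp ℂ f) a) : Ideal (MvPolynomial (Fin N) K)),
      bind₁ (iter f k) P ∈ (vanE 𝒰 (orb (mp ℂ f) a) : Ideal (MvPolynomial (Fin N) K)) := by
  classical
  obtain ⟨K', _, _, _, _, _, b, hab, hbinf⟩ := exists_point hd hf a hinf
  have hbinf' : (Set.range (orb (mp K' f) b)).Infinite := hbinf
  -- an algebraic closure of `K'` inside `ℂ`
  letI : Algebra (AlgebraicClosure K') ℂ :=
    (IsAlgClosed.lift (R := K') (M := ℂ) (S := AlgebraicClosure K')).toRingHom.toAlgebra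
  haveI : IsScalarTower K' (AlgebraicClosure K') ℂ := IsScalarTower.of_algebraMap_eq fun x =>
    ((IsAlgClosed.lift (R := K') (M := ℂ) (S := AlgebraicClosure K')).commutes x).symm
  set S' : Set (MvPolynomial (Fin N) K') := MvPolynomial.map (algebraMap K K') '' S with hS'
  have hvanish : ∀ n, ∀ P : MvPolynomial (Fin N) K, aeval (orb (mp ℂ f) a n) P = 0 →
      aeval (orb (mp K' f) b n) P = 0 := by
    intro n P hP
    rw [aeval_orb] at hP ⊢
    exact hab _ hP
  have hmem : ∀ P : MvPolynomial (Fin N) K, map (algebraMap K K') P ∈ van 𝒰 (orb (mp K' f) b) ↔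
      P ∈ (vanE 𝒰 (orb (mp K' f) b) : Ideal (MvPolynomial (Fin N) K)) := by
    intro P
    rw [mem_van, mem_vanE]
    refine eventually_congr (Eventually.of_forall fun n => ?_)
    rw [eval_map, ← aeval_def]
  have hSb : ∀ᶠ n in (𝒰 : Filter ℕ), ∀ F ∈ S', eval (orb (mp K' f) b n) F = 0 := by
    filter_upwards [hS] with n hn
    rintro _ ⟨F, hF, rfl⟩
    rw [eval_map, ← aeval_def]
    exact hvanish n F (hn F hF)
  have hreg : Regular (AlgebraicClosure K') d (mp K' f) := Regular.mp (E := ℂ) hf
  obtain ⟨k, hk, hinv⟩ := key (Kb := AlgebraicClosure K') hd hreg S' (hdim K') (by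
    intro y hy hyS k c hk hc
    have h1 : MultLT (iter (lead d f) k) (fun i => algebraMap (AlgebraicClosure K') ℂ (y i))
        (d ^ k) := by
      refine hmul _ ?_ ?_ k (algebraMap (AlgebraicClosure K') ℂ c) hk ?_
      · intro h0
        apply hy
        funext i
        exact (map_eq_zero (algebraMap (AlgebraicClosure K') ℂ)).1 (congrFun h0 i)
      · intro F hF
        have h2 := hyS (map (algebraMap K K') F) (Ideal.subset_span ⟨F, hF, rfl⟩)
        have h3 : (map (algebraMap K K') F).totalDegree = F.totalDegree :=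
          Finset.sup_congr (support_map_of_injective F (algebraMap K K').injective)
            fun _ _ => rfl
        have h4 : homogeneousComponent F.totalDegree (map (algebraMap K K') F) =
            map (algebraMap K K') (homogeneousComponent F.totalDegree F) := by
          ext m
          rw [coeff_homogeneousComponent, coeff_map, coeff_map, coeff_homogeneousComponent]
          split_ifs with h
          · rfl
          · rw [map_zero]
        rw [h3, h4] at h2
        have h5 := congrArg (algebraMap (AlgebraicClosure K') ℂ) h2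
        rw [map_zero, ← aeval_algebraMap_apply] at h5
        rw [← h5]
        exact (aeval_mp (K' := K') (fun i => algebraMap (AlgebraicClosure K') ℂ (y i)) _).symm
      · intro i
        have h2 := hc i
        rw [lead_mp, iter_mp] at h2
        have h5 := congrArg (algebraMap (AlgebraicClosure K') ℂ) h2
        rw [← aeval_algebraMap_apply, map_mul] at h5
        rw [← h5]
        exact (aeval_mp (K' := K') (fun i => algebraMap (AlgebraicClosure K') ℂ (y i)) _).symm
    have h6 : iter (lead d (mp K' f)) k = mp K' (iter (lead d f) k) := by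
      funext i
      rw [lead_mp, iter_mp]
      rfl
    rw [h6]
    exact MultLT.mp h1) b hbinf' 𝒰 h𝒰 hSb
  -- comparison of the ideals
  have hle : (vanE 𝒰 (orb (mp ℂ f) a) : Ideal (MvPolynomial (Fin N) K)) ≤
      vanE 𝒰 (orb (mp K' f) b) := by
    intro P hP
    rw [mem_vanE] at hP ⊢
    filter_upwards [hP] with n hn
    exact hvanish n P hn
  have hspan : Ideal.span S ≤ (vanE 𝒰 (orb (mp ℂ f) a) : Ideal (MvPolynomial (Fin N) K)) := by
    refine Ideal.span_le.2 fun F hF => ?_
    change ∀ᶠ n in (𝒰 : Filter ℕ), aeval (orb (mp ℂ f) a n) F = 0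
    filter_upwards [hS] with n hn
    exact hn F hF
  have hdimK : ringKrullDim (MvPolynomial (Fin N) K ⧸
      (vanE 𝒰 (orb (mp ℂ f) a) : Ideal (MvPolynomial (Fin N) K))) ≤ 1 := by
    refine (ringKrullDim_le_of_surjective (Ideal.Quotient.factor hspan)
      (Ideal.Quotient.factor_surjective hspan)).trans ?_
    have h1 := hdim K
    have h2 : (MvPolynomial.map (algebraMap K K) '' S : Set (MvPolynomial (Fin N) K)) = S := by
      rw [Algebra.algebraMap_self, show (MvPolynomial.map (RingHom.id K) : MvPolynomial (Fin N) K →+* _) =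
        RingHom.id _ from RingHom.ext fun x => map_id x]
      simp
    rw [h2] at h1
    exact h1
  haveI := vanE_isPrime (K := K) 𝒰 (orb (mp ℂ f) a)
  haveI := vanE_isPrime (K := K) 𝒰 (orb (mp K' f) b)
  have heq := prime_eq hle hdimK (not_maximal (K := K) hbinf' h𝒰)
  refine ⟨k, hk, fun P hP => ?_⟩
  rw [heq, ← hmem] at hP ⊢
  have h1 := hinv _ hP
  have h2 : bind₁ (iter (mp K' f) k) (map (algebraMap K K') P) =
      map (algebraMap K K') (bind₁ (iter f k) P) := by
    rw [map_bind₁]
    congr 2
    funext i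
    exact iter_mp f k i
  rw [h2] at h1
  exact h1

/-- The main theorem for complex points. -/
theorem main_complex (hd : 2 ≤ d) (hf : Regular ℂ d f) (S : Set (MvPolynomial (Fin N) K))
    (hdim : ∀ (K' : Type) [Field K'] [NumberField K'] [Algebra K K'] [Algebra K' ℂ]
      [IsScalarTower K K' ℂ],
      ringKrullDim (MvPolynomial (Fin N) K' ⧸
        Ideal.span (MvPolynomial.map (algebraMap K K') '' S)) ≤ 1)
    (hmul : ∀ y : Fin N → ℂ, y ≠ 0 → AtInf S y →
      ∀ (k : ℕ) (c : ℂ), 1 ≤ k → (∀ i, aeval y (iter (lead d f) k i) = c * y i) →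
      MultLT (iter (lead d f) k) y (d ^ k))
    (a : Fin N → ℂ) :
    ∃ T : Finset (ℕ × ℕ), {n : ℕ | ∀ F ∈ S, aeval (orb (mp ℂ f) a n) F = 0} =
      {n : ℕ | ∃ q ∈ T, ∃ k : ℕ, n = q.1 * k + q.2} := by
  classical
  apply ap_of_ultra
  intro 𝒰 h𝒰 h𝒩
  by_cases hinf : (Set.range (orb (mp ℂ f) a)).Infinite
  · obtain ⟨k, hk, hP⟩ := key_complex hd hf S hdim hmul a hinf 𝒰 h𝒰 h𝒩
    obtain ⟨M, hM, hMk, hMP⟩ := exists_closedE hP
    refine ⟨M, ?_, hM, k, hk, hMk⟩
    intro n hn F hF
    refine hMP n hn F ?_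
    change ∀ᶠ n in (𝒰 : Filter ℕ), aeval (orb (mp ℂ f) a n) F = 0
    have h1 : ∀ᶠ n in (𝒰 : Filter ℕ), ∀ F ∈ S, aeval (orb (mp ℂ f) a n) F = 0 := h𝒩
    filter_upwards [h1] with n hn
    exact hn F hF
  · rw [Set.not_infinite] at hinf
    obtain ⟨n₁, n₂, hne, heq⟩ : ∃ n₁ n₂ : ℕ, n₁ < n₂ ∧
        orb (mp ℂ f) a n₁ = orb (mp ℂ f) a n₂ := by
      by_contra hcon
      push Not at hcon
      have hinj : Function.Injective (orb (mp ℂ f) a) := by
        intro m n hmn
        rcases lt_trichotomy m n with h | h | h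
        · exact absurd hmn (hcon m n h)
        · exact h
        · exact absurd hmn.symm (hcon n m h)
      exact Set.infinite_range_of_injective hinj hinf
    have hper : ∀ n, n₁ ≤ n → orb (mp ℂ f) a (n + (n₂ - n₁)) = orb (mp ℂ f) a n := by
      intro n hn
      refine orb_period (n₀ := n₁) ?_ n hn
      rw [show n₁ + (n₂ - n₁) = n₂ by omega]
      exact heq.symm
    refine ⟨{n | ∀ F ∈ S, aeval (orb (mp ℂ f) a n) F = 0} ∩ Set.Ici n₁, Set.inter_subset_left,
      inter_mem h𝒩 (h𝒰 (Ici_mem_atTop n₁)), n₂ - n₁, by omega, ?_⟩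
    rintro n ⟨hn, hn1⟩
    refine ⟨?_, ?_⟩
    · intro F hF
      rw [hper n hn1]
      exact hn F hF
    · exact Set.mem_Ici.2 (le_trans hn1 (Nat.le_add_right _ _))

end main

end Pool.Agent.Helper65.RP
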