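import Pool.Agent.Helper65.RP.Defs2

/-!
# Dynamical Mordell-Lang for curves and regular polynomial maps: dehomogenisation
-/

set_option autoImplicit false

namespace Pool.Agent.Helper65.RP

open MvPolynomial

/-- Dehomogenisation: `X_0 = 1`. -/
noncomputable def deh {K : Type} [Field K] {N : ℕ} (p : MvPolynomial (Fin (N + 1)) K) :
    MvPolynomial (Fin N) K :=
  aeval (Fin.cons 1 X : Fin (N + 1) → MvPolynomial (Fin N) K) p

end Pool.Agent.Helper65.RP
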