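import Pool.Agent.Helper65.RP.Api2

/-!
# Dynamical Mordell-Lang for curves and regular polynomial maps: number fields
-/

set_option autoImplicit false
set_option linter.unusedVariables false

namespace Pool.Agent.Helper65.RP

open MvPolynomial Filter Topology

section local_
variable {K L Kb Ω : Type} [Field K] [CharZero K] [Field L] [Field Kb] [Algebra K L] [Algebra K Kb]
  [Algebra L Kb] [IsScalarTower K L Kb] [NormedField Ω] [Algebra K Ω] [Algebra L Ω] [Algebra Kb Ω]
  [IsScalarTower K Kb Ω] [IsScalarTower L Kb Ω] [IsScalarTower K L Ω] [FiniteDimensional K L]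
  {N e : ℕ} {𝒰 : Ultrafilter ℕ} {i₀ : Fin N}
  {F : Fin N → MvPolynomial (Fin N) K} {q : Fin N → L}
  {s : ℕ → ℕ → ℝ} {z : ℕ → ℕ → Fin N → K}

/-- The local part of the proof, at a fixed point of small multiplicity. -/
theorem final_mult {Λ : Type} [Fintype Λ] (Z : PD K Ω Λ) {g : Λ → ℝ} (he : 2 ≤ e)
    (hF : ∀ i, (F i).totalDegree ≤ e)
    (hs : ∀ m, ∀ᶠ n in (𝒰 : Filter ℕ), s m n = e * s (m + 1) n)
    (hz : ∀ m, ∀ᶠ n in (𝒰 : Filter ℕ), ∀ i, z m n i = eval (z (m + 1) n) (F i))
    (hlev : ∀ m, Lev Ω 𝒰 (s m) (z m) i₀) (hgrow : ∀ m, Grow Z g 𝒰 (s m) (z m))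
    (hcen : ∀ m, IsCenter Ω 𝒰 (s m) (z m) i₀ (fun i => algebraMap L Kb (q i)))
    {c : L} (hc : c ≠ 0) (hfix : ∀ i, aeval q (homogeneousComponent e (F i)) = c * q i)
    (hmult : MultLT (fun i => homogeneousComponent e (F i)) (fun i => algebraMap L Kb (q i)) e) :
    ∃ k, 1 ≤ k ∧ ∀ P ∈ van 𝒰 (z 0), bind₁ (iter F k) P ∈ van 𝒰 (z 0) := by
  classical
  have hq : q i₀ = 1 := by
    have h1 : algebraMap L Kb (q i₀) = 1 := (hcen 0).1
    exact (algebraMap L Kb).injective (by rw [h1, map_one])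
  have hm := mult_slice (Kb := Kb) (by omega) (fun i => homogeneousComponent e (F i))
    (fun i => homogeneousComponent_isHomogeneous e (F i)) q i₀ hq hc hfix hmult
  obtain ⟨κ, m₀, hκ, hκ1, hcen'⟩ := exists_kappa he hF hq hc hfix hs hz hlev
    (fun m => IsCenter.exists_kappa (hlev m) (hcen m)) hm
  have hI := exists_ideal he hF hq hc hfix hs hz hlev hκ hκ1 hcen'
    (ν := e - 1) (fun n => Nat.le_sub_one_of_lt (hm n))
  have hbd : 1 ≤ Z.bd g := by
    unfold PD.bd
    have h1 : 0 ≤ (∑ l, g l) / Z.n :=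
      div_nonneg (Finset.sum_nonneg fun l _ => (hgrow 0).pos l) (Nat.cast_nonneg _)
    linarith
  obtain ⟨m, m', hmm, hvan⟩ := finite_levels (𝒰 := 𝒰) z i₀ (fun m p hp => (hlev m).eval_ne hp) (by
    intro ε hε
    obtain ⟨j, D, hD1, hD2, hD3⟩ := exists_degree hκ hbd
      (Nat.cast_nonneg (Module.finrank K L) : (0 : ℝ) ≤ _) he
      (show e - 1 < e by omega) hε
    obtain ⟨I, m₁, hfd, hfr, hord⟩ := hI j
    refine ⟨D, m₁, hD1, ?_⟩
    have h1 := rho_inf_le Z hlev hgrow I hord hD2
    refine le_trans ?_ hD3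
    calc (rho (⨅ m : {m : ℕ // m₁ ≤ m}, van 𝒰 (z m)) D : ℝ)
        ≤ ((Module.finrank K L *
          Module.finrank L (MvPolynomial (Option (Fin N)) L ⧸ I) : ℕ) : ℝ) := by
          exact_mod_cast h1
      _ ≤ ((Module.finrank K L * (e * (e - 1)) ^ j : ℕ) : ℝ) := by
          exact_mod_cast Nat.mul_le_mul_left _ hfr
      _ = (Module.finrank K L : ℝ) * ((e * (e - 1) : ℕ) : ℝ) ^ j := by push_cast; ring)
  exact exists_shift hz hmm hvan

end local_

section orbit
variable {K : Type} [Field K] {N : ℕ} {f : Fin N → MvPolynomial (Fin N) K} {a : Fin N → K}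

lemma orb_succ (n : ℕ) : orb f a (n + 1) = fun i => eval (orb f a n) (f i) := by
  unfold orb
  rw [Function.iterate_succ_apply']

/-- A subring containing the coefficients contains the orbit. -/
lemma orb_mem (O : Subring K) (ha : ∀ i, a i ∈ O) (hf : ∀ i m, (f i).coeff m ∈ O) (n : ℕ)
    (i : Fin N) : orb f a n i ∈ O := by
  induction n generalizing i with
  | zero => exact ha i
  | succ n ih =>
    rw [orb_succ]
    simp only
    rw [eval_eq']
    exact O.sum_mem fun m _ => O.mul_mem (hf i m) (O.prod_mem fun j _ => O.pow_mem (ih j) _)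

lemma orb_period {n₀ k : ℕ} (h : orb f a (n₀ + k) = orb f a n₀) (n : ℕ) (hn : n₀ ≤ n) :
    orb f a (n + k) = orb f a n := by
  induction n, hn using Nat.le_induction with
  | base => exact h
  | succ n hn ih =>
    rw [show n + 1 + k = n + k + 1 by ring, orb_succ, orb_succ, ih]

/-- The set of indices `n` such that `x_n` lies on the variety of the ideal `van`. -/
lemma exists_closed {𝒰 : Ultrafilter ℕ} {k : ℕ}
    (h : ∀ P ∈ van 𝒰 (orb f a), bind₁ (iter f k) P ∈ van 𝒰 (orb f a)) :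
    ∃ M : Set ℕ, M ∈ 𝒰 ∧ (∀ n ∈ M, n + k ∈ M) ∧
      ∀ n ∈ M, ∀ P ∈ van 𝒰 (orb f a), eval (orb f a n) P = 0 := by
  classical
  refine ⟨{n | ∀ P ∈ van 𝒰 (orb f a), eval (orb f a n) P = 0}, ?_, ?_, fun n hn => hn⟩
  · obtain ⟨t, ht⟩ := (inferInstance : IsNoetherianRing (MvPolynomial (Fin N) K)).noetherian
      (van 𝒰 (orb f a))
    have h1 : ∀ᶠ n in (𝒰 : Filter ℕ), ∀ P ∈ t, eval (orb f a n) P = 0 := by
      rw [eventually_all_finset]
      intro P hP
      have h2 : P ∈ van 𝒰 (orb f a) := by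
        rw [← ht]
        exact Ideal.subset_span hP
      exact h2
    change ∀ᶠ n in (𝒰 : Filter ℕ), ∀ P ∈ van 𝒰 (orb f a), eval (orb f a n) P = 0
    filter_upwards [h1] with n hn P hP
    rw [← ht] at hP
    have h3 : Ideal.span (t : Set (MvPolynomial (Fin N) K)) ≤ RingHom.ker (eval (orb f a n)) :=
      Ideal.span_le.2 fun Q hQ => RingHom.mem_ker.2 (hn Q hQ)
    exact RingHom.mem_ker.1 (h3 hP)
  · intro n hn P hP
    have h1 := hn _ (h P hP)
    have h2 : orb f a (n + k) = fun i => eval (orb f a n) (iter f k i) := by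
      funext i
      exact orb_add a n k i
    rw [h2]
    have h3 : eval (orb f a n) (bind₁ (iter f k) P) =
        eval (fun i => eval (orb f a n) (iter f k i)) P := by
      have := aeval_bind₁ (orb f a n) (iter f k) P
      simpa [aeval_eq_eval] using this
    rw [← h3]
    exact h1

end orbit

section main
variable {K Kb : Type} [Field K] [NumberField K] [Field Kb] [Algebra K Kb] [IsAlgClosure K Kb]
  {N d : ℕ} {f : Fin N → MvPolynomial (Fin N) K}

/-- The leading forms. -/
noncomputable def lead (d : ℕ) (f : Fin N → MvPolynomial (Fin N) K) (i : Fin N) :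
    MvPolynomial (Fin N) K := homogeneousComponent d (f i)

/-- The key step: for each nonprincipal ultrafilter. -/
theorem key (hd : 2 ≤ d) (hf : Regular Kb d f) (S : Set (MvPolynomial (Fin N) K))
    (hdim : ringKrullDim (MvPolynomial (Fin N) K ⧸ Ideal.span S) ≤ 1)
    (hmul : ∀ y : Fin N → Kb, y ≠ 0 →
      (∀ F ∈ Ideal.span S, aeval y (homogeneousComponent F.totalDegree F) = 0) →
      ∀ (k : ℕ) (c : Kb), 1 ≤ k → (∀ i, aeval y (iter (lead d f) k i) = c * y i) →
      MultLT (iter (lead d f) k) y (d ^ k))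
    (a : Fin N → K) (hinf : (Set.range (orb f a)).Infinite) (𝒰 : Ultrafilter ℕ)
    (h𝒰 : (𝒰 : Filter ℕ) ≤ atTop)
    (hS : ∀ᶠ n in (𝒰 : Filter ℕ), ∀ F ∈ S, eval (orb f a n) F = 0) :
    ∃ k, 1 ≤ k ∧ ∀ P ∈ van 𝒰 (orb f a), bind₁ (iter f k) P ∈ van 𝒰 (orb f a) := by
  classical
  haveI : IsAlgClosed Kb := IsAlgClosure.isAlgClosed K
  -- places
  obtain ⟨Λ₀, _, abv, O, hF, hfin, hl⟩ := exists_pd K
    ((Finset.univ.image a) ∪ Finset.univ.biUnion fun i => (f i).support.image fun m =>
      (f i).coeff m)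
  have ha : ∀ i, a i ∈ O := fun i =>
    hF _ (Finset.mem_union_left _ (Finset.mem_image_of_mem _ (Finset.mem_univ i)))
  have hfO : ∀ i m, (f i).coeff m ∈ O := by
    intro i m
    by_cases hm : (f i).coeff m = 0
    · rw [hm]
      exact O.zero_mem
    · exact hF _ (Finset.mem_union_right _ (Finset.mem_biUnion.2 ⟨i, Finset.mem_univ i,
        Finset.mem_image_of_mem _ (mem_support_iff.2 hm)⟩))
  have hO : ∀ n i, orb f a n i ∈ O := fun n i => orb_mem O ha hfO n i
  have hgr := fun l => orbit_growth (f := f) hd (abv l) (growth_step (by omega) hf (abv l)) a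
  choose Gl Cl hGl hCl using hgr
  -- one place with positive growth
  obtain ⟨l₀, hl₀⟩ : ∃ l₀, 0 < Gl l₀ := by
    by_contra hcon
    push Not at hcon
    have h0 : ∀ l, Gl l = 0 := fun l => le_antisymm (hcon l) (hGl l)
    apply hinf
    set B : ℝ := Real.exp (∑ l, |Cl l|) with hB
    have hpi : (Set.pi Set.univ (fun _ : Fin N => {x : K | x ∈ O ∧ ∀ l, abv l x ≤ B})).Finite :=
      Set.Finite.pi fun _ => hfin B
    refine hpi.subset ?_
    rintro _ ⟨n, rfl⟩ i _
    refine ⟨hO n i, fun l => ?_⟩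
    have h1 := hCl l n
    rw [h0 l, mul_zero, sub_zero] at h1
    have h2 : lh (abv l) (orb f a n) ≤ ∑ l, |Cl l| := by
      refine (le_abs_self _).trans (h1.trans ((le_abs_self _).trans ?_))
      exact Finset.single_le_sum (f := fun l => |Cl l|) (fun l _ => abs_nonneg _)
        (Finset.mem_univ l)
    have h3 : abv l (orb f a n i) ≤ ⨆ i, abv l (orb f a n i) :=
      Finite.le_ciSup (fun i => abv l (orb f a n i)) i
    have h4 : 0 < max 1 (⨆ i, abv l (orb f a n i)) := lt_of_lt_of_le one_pos (le_max_left _ _)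
    calc abv l (orb f a n i) ≤ max 1 (⨆ i, abv l (orb f a n i)) := h3.trans (le_max_right _ _)
      _ = Real.exp (lh (abv l) (orb f a n)) := by
          unfold lh
          rw [Real.exp_log h4]
      _ ≤ B := Real.exp_le_exp.2 h2
  obtain ⟨Ω, _, _, _, _, Λ, _, Z, ι, hZO, hnorm, hZabv⟩ := hl l₀
  set G₀ : ℝ := Gl l₀ with hG₀
  letI : Algebra Kb Ω := (IsAlgClosed.lift (R := K) (M := Ω) (S := Kb)).toRingHom.toAlgebra
  haveI : IsScalarTower K Kb Ω := IsScalarTower.of_algebraMap_eq fun x =>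
    ((IsAlgClosed.lift (R := K) (M := Ω) (S := Kb)).commutes x).symm
  -- levels
  set z : ℕ → ℕ → Fin N → K := fun m n => orb f a (n - m) with hz
  set s : ℕ → ℕ → ℝ := fun m n => (d : ℝ) ^ (n - m) * G₀ with hs
  have hvan : van 𝒰 (orb f a) = van 𝒰 (z 0) := rfl
  have hspan : Ideal.span S ≤ van 𝒰 (orb f a) := by
    refine Ideal.span_le.2 fun F hF => ?_
    change ∀ᶠ n in (𝒰 : Filter ℕ), eval (orb f a n) F = 0
    filter_upwards [hS] with n hn
    exact hn F hF
  have hdim' : ringKrullDim (MvPolynomial (Fin N) K ⧸ van 𝒰 (orb f a)) ≤ 1 :=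
    (ringKrullDim_le_of_surjective (Ideal.Quotient.factor hspan)
      (Ideal.Quotient.factor_surjective hspan)).trans hdim
  have halg := fun (m : ℕ) (i₀ i : Fin N) htr => alg_dep (f := f) h𝒰 a hdim'
    (fun i => integral_step (Kb := Kb) (by omega) hf i) m i₀ i htr
  have hlev' := fun m => exists_lev (Ω := Ω) (f := f) h𝒰 hd a (abv l₀) hnorm G₀ (Cl l₀) hl₀
    (hCl l₀) halg m
  choose i₀ hlev using hlev'
  set g : Λ → ℝ := fun l => Gl (ι l) / G₀ with hg
  have hgrow : ∀ m, Grow Z g 𝒰 (s m) (z m) := by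
    intro m
    refine exists_grow h𝒰 hd a Z G₀ hl₀ (fun l => Gl (ι l)) (fun l => hGl _)
      (∑ l, |Cl l|) ?_ (fun n i => by rw [hZO]; exact hO n i) m
    intro l n
    have h1 : lh (Z.abv l) (orb f a n) = lh (abv (ι l)) (orb f a n) := by
      unfold lh
      simp only [hZabv]
    rw [h1]
    refine (hCl (ι l) n).trans ((le_abs_self _).trans ?_)
    exact Finset.single_le_sum (f := fun l => |Cl l|) (fun l _ => abs_nonneg _)
      (Finset.mem_univ (ι l))
  have hcen' := fun m => exists_center (Kb := Kb) (hlev m)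
  choose q hq using hcen'
  -- transition between levels
  have hsz : ∀ m k, ∀ᶠ n in (𝒰 : Filter ℕ), s m n = (d : ℝ) ^ k * s (m + k) n := by
    intro m k
    filter_upwards [h𝒰 (eventually_ge_atTop (m + k))] with n hn
    simp only [hs]
    rw [← mul_assoc, ← pow_add]
    congr 2
    omega
  have hzz : ∀ m k, ∀ᶠ n in (𝒰 : Filter ℕ), ∀ i, z m n i = eval (z (m + k) n) (iter f k i) := by
    intro m k
    filter_upwards [h𝒰 (eventually_ge_atTop (m + k))] with n hn i
    simp only [hz]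
    rw [← orb_add]
    congr 1
    omega
  -- degrees of the limit points
  have hR : ∀ (m r : ℕ) (σ : Fin r → (Kb ≃ₐ[K] Kb)),
      (∀ i j, i ≠ j → (fun l => σ i (q m l)) ≠ (fun l => σ j (q m l))) →
      r ≤ ⌊2 * Z.bd g⌋₊ := by
    intro m r σ hσ
    obtain ⟨e, A, α, he, hA, hα, hval⟩ := exists_group (Kb := Kb) (hlev m)
    obtain ⟨C, hC⟩ := lower_bound (hlev m) hA hα hval (hq m) σ hσ
    have hup := fun D => upper_bound (hlev m) Z (hgrow m) he hval D
    apply Nat.le_floor
    by_contra hcon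
    push Not at hcon
    have he' : (0 : ℝ) < e := by exact_mod_cast he
    have hbd : 1 ≤ Z.bd g := by
      unfold PD.bd
      have h1 : 0 ≤ (∑ l, g l) / Z.n :=
        div_nonneg (Finset.sum_nonneg fun l _ => (hgrow m).pos l) (Nat.cast_nonneg _)
      linarith
    -- choose D large
    obtain ⟨D, hD⟩ := exists_nat_gt ((r * e * C + 1) / (e * (r - 2 * Z.bd g)) + C + 1 : ℝ)
    have hDC : (C : ℝ) + 1 < D := by
      have h1 : (0 : ℝ) ≤ (r * e * C + 1) / (e * (r - 2 * Z.bd g)) := by
        apply div_nonneg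
        · positivity
        · exact mul_nonneg he'.le (by linarith)
      linarith
    have hDC' : C + 1 ≤ D := by exact_mod_cast hDC.le
    have h2 := hC D
    have h3 := hup D
    have h4 : (r : ℝ) * e * (D - C) ≤ 2 * e * Z.bd g * D + 1 := by
      calc (r : ℝ) * e * (D - C) = ((r * e * (D - C) : ℕ) : ℝ) := by
            rw [Nat.cast_mul, Nat.cast_mul, Nat.cast_sub (by omega)]
        _ ≤ rho (van 𝒰 (z m)) D := by exact_mod_cast h2
        _ ≤ _ := h3
    have h5 : (r * e * C + 1) / (e * (r - 2 * Z.bd g)) < (D : ℝ) := by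
      have : (0 : ℝ) ≤ C := Nat.cast_nonneg _
      linarith
    rw [div_lt_iff₀ (mul_pos he' (by linarith))] at h5
    nlinarith
  -- periodicity
  have hstep : ∀ m, ∃ c : Kb, c ≠ 0 ∧ ∀ i, aeval (q (m + 1)) (lead d f i) = c * q m i := by
    intro m
    refine center_map hf (hlev m) (hq m) (hlev (m + 1)) (hq (m + 1)) ?_ ?_
    · filter_upwards [hsz m 1] with n hn
      rw [pow_one] at hn
      exact hn
    · filter_upwards [hzz m 1] with n hn i
      have h1 := hn i
      have h2 : iter f 1 i = f i := by simp [iter, bind₁_X_left]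
      rw [h2] at h1
      exact h1
  obtain ⟨k, hk, hper⟩ := exists_period hd (lead d f)
    (fun i => homogeneousComponent_isHomogeneous d (f i)) hf.2 q i₀ (fun m => (hq m).1) hstep
    ⌊2 * Z.bd g⌋₊ hR
  -- the levels `m * k` with the index and centre of level `0`
  have hper' : ∀ m, ∃ c : Kb, c ≠ 0 ∧ ∀ i, q (m * k) i = c * q 0 i := by
    intro m
    induction m with
    | zero => exact ⟨1, one_ne_zero, fun i => by rw [zero_mul, one_mul]⟩
    | succ m ih =>
      obtain ⟨c, hc, h1⟩ := ih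
      obtain ⟨c', hc', h2⟩ := hper (m * k)
      refine ⟨c' * c, mul_ne_zero hc' hc, fun i => ?_⟩
      rw [show (m + 1) * k = m * k + k by ring, h2, h1, mul_assoc]
  have hchg : ∀ m, Lev Ω 𝒰 (s (m * k)) (z (m * k)) (i₀ 0) ∧
      IsCenter Ω 𝒰 (s (m * k)) (z (m * k)) (i₀ 0) (q 0) := by
    intro m
    obtain ⟨c, hc, h1⟩ := hper' m
    exact change_index (hlev (m * k)) (hq (m * k)) (q 0) c hc h1 (hq 0).1
  have he : 2 ≤ d ^ k := hd.trans (Nat.le_self_pow (by omega) d)
  obtain ⟨hregk, hleadk⟩ := regular_iter (Kb := Kb) hf k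
  obtain ⟨c, hc, hfix⟩ := center_map (f := iter f k) hregk (hlev 0) (hq 0)
    (by simpa using (hchg 1).1) (by simpa using (hchg 1).2)
    (by
      filter_upwards [hsz 0 k] with n hn
      rw [zero_add] at hn
      push_cast
      exact hn)
    (by
      filter_upwards [hzz 0 k] with n hn
      rw [zero_add] at hn
      exact hn)
  have hq0 : q 0 ≠ 0 := by
    intro h0
    have h1 := (hq 0).1
    rw [h0] at h1
    exact zero_ne_one h1
  have hinfty : ∀ F ∈ Ideal.span S, aeval (q 0) (homogeneousComponent F.totalDegree F) = 0 :=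
    fun F hF => center_mem (hlev 0) (hq 0) (hspan hF)
  have hfix' : ∀ i, aeval (q 0) (iter (lead d f) k i) = c * q 0 i := by
    intro i
    have h1 := hfix i
    rw [hleadk i] at h1
    exact h1
  have hmul0 := hmul (q 0) hq0 hinfty k c hk hfix'
  have hs' : ∀ m, ∀ᶠ n in (𝒰 : Filter ℕ), s (m * k) n = ((d ^ k : ℕ) : ℝ) * s ((m + 1) * k) n := by
    intro m
    filter_upwards [hsz (m * k) k] with n hn
    rw [show (m + 1) * k = m * k + k by ring]
    push_cast
    exact hn
  have hz' : ∀ m, ∀ᶠ n in (𝒰 : Filter ℕ), ∀ i, z (m * k) n i =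
      eval (z ((m + 1) * k) n) (iter f k i) := by
    intro m
    filter_upwards [hzz (m * k) k] with n hn
    rw [show (m + 1) * k = m * k + k by ring]
    exact hn
  -- the field of definition of the limit point
  have hfd : FiniteDimensional K (IntermediateField.adjoin K (Set.range (q 0))) :=
    IntermediateField.finiteDimensional_adjoin fun x _ =>
      (Algebra.IsAlgebraic.isAlgebraic (R := K) x).isIntegral
  set L := IntermediateField.adjoin K (Set.range (q 0)) with hL
  set qL : Fin N → L := fun i => ⟨q 0 i, IntermediateField.subset_adjoin K _ ⟨i, rfl⟩⟩ with hqL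
  have hqL' : (fun i => algebraMap L Kb (qL i)) = q 0 := rfl
  haveI : IsScalarTower K L Ω := IsScalarTower.of_algebraMap_eq fun x => by
    rw [IsScalarTower.algebraMap_apply K Kb Ω, IsScalarTower.algebraMap_apply K L Kb]
    rfl
  set cL : L := aeval qL (homogeneousComponent (d ^ k) (iter f k (i₀ 0))) with hcL
  have haev : ∀ p : MvPolynomial (Fin N) K, algebraMap L Kb (aeval qL p) = aeval (q 0) p := by
    intro p
    rw [← hqL', ← aeval_algebraMap_apply]
    rfl
  have hcc : algebraMap L Kb cL = c := by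
    rw [hcL, haev, hfix, (hq 0).1, mul_one]
  have hcL0 : cL ≠ 0 := by
    intro h0
    rw [h0, map_zero] at hcc
    exact hc hcc.symm
  have hfixL : ∀ i, aeval qL (homogeneousComponent (d ^ k) (iter f k i)) = cL * qL i := by
    intro i
    apply (algebraMap L Kb).injective
    rw [haev, hfix, map_mul, hcc]
    rfl
  have hlk : (fun i => homogeneousComponent (d ^ k) (iter f k i)) = iter (lead d f) k :=
    funext hleadk
  obtain ⟨k', hk', hfinal⟩ := final_mult (L := L) (Kb := Kb) (q := qL) Z he hregk.1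
    (s := fun m => s (m * k)) (z := fun m => z (m * k)) hs' hz'
    (fun m => (hchg m).1) (fun m => hgrow (m * k)) (fun m => (hchg m).2) hcL0 hfixL
    (by
      rw [hlk, hqL']
      exact hmul0)
  refine ⟨k * k', Nat.mul_pos hk hk', ?_⟩
  intro P hP
  have hP' : P ∈ van 𝒰 (z (0 * k)) := by
    rw [zero_mul]
    exact hP
  have h1 := hfinal P hP'
  rw [zero_mul, iter_iter] at h1
  exact h1

/-- The main theorem. -/
theorem main (hd : 2 ≤ d) (hf : Regular Kb d f) (S : Set (MvPolynomial (Fin N) K))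
    (hdim : ringKrullDim (MvPolynomial (Fin N) K ⧸ Ideal.span S) ≤ 1)
    (hmul : ∀ y : Fin N → Kb, y ≠ 0 →
      (∀ F ∈ Ideal.span S, aeval y (homogeneousComponent F.totalDegree F) = 0) →
      ∀ (k : ℕ) (c : Kb), 1 ≤ k → (∀ i, aeval y (iter (lead d f) k i) = c * y i) →
      MultLT (iter (lead d f) k) y (d ^ k))
    (a : Fin N → K) :
    ∃ T : Finset (ℕ × ℕ), {n : ℕ | ∀ F ∈ S, eval (orb f a n) F = 0} =
      {n : ℕ | ∃ q ∈ T, ∃ k : ℕ, n = q.1 * k + q.2} := by
  classical
  apply ap_of_ultra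
  intro 𝒰 h𝒰 h𝒩
  by_cases hinf : (Set.range (orb f a)).Infinite
  · obtain ⟨k, hk, hP⟩ := key hd hf S hdim hmul a hinf 𝒰 h𝒰 h𝒩
    obtain ⟨M, hM, hMk, hMP⟩ := exists_closed hP
    refine ⟨M, ?_, hM, k, hk, hMk⟩
    intro n hn F hF
    refine hMP n hn F ?_
    change ∀ᶠ n in (𝒰 : Filter ℕ), eval (orb f a n) F = 0
    have h1 : ∀ᶠ n in (𝒰 : Filter ℕ), ∀ F ∈ S, eval (orb f a n) F = 0 := h𝒩
    filter_upwards [h1] with n hn
    exact hn F hF
  · rw [Set.not_infinite] at hinf
    obtain ⟨n₁, n₂, hne, heq⟩ : ∃ n₁ n₂ : ℕ, n₁ < n₂ ∧ orb f a n₁ = orb f a n₂ := by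
      by_contra hcon
      push Not at hcon
      have hinj : Function.Injective (orb f a) := by
        intro m n hmn
        rcases lt_trichotomy m n with h | h | h
        · exact absurd hmn (hcon m n h)
        · exact h
        · exact absurd hmn.symm (hcon n m h)
      exact Set.infinite_range_of_injective hinj hinf
    have hper : ∀ n, n₁ ≤ n → orb f a (n + (n₂ - n₁)) = orb f a n := by
      intro n hn
      refine orb_period (n₀ := n₁) ?_ n hn
      rw [show n₁ + (n₂ - n₁) = n₂ by omega]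
      exact heq.symm
    refine ⟨{n | ∀ F ∈ S, eval (orb f a n) F = 0} ∩ Set.Ici n₁, Set.inter_subset_left,
      inter_mem h𝒩 (h𝒰 (Ici_mem_atTop n₁)), n₂ - n₁, by omega, ?_⟩
    rintro n ⟨hn, hn1⟩
    refine ⟨?_, ?_⟩
    · intro F hF
      rw [hper n hn1]
      exact hn F hF
    · exact Set.mem_Ici.2 (le_trans hn1 (Nat.le_add_right _ _))

end main

end Pool.Agent.Helper65.RP
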