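import Pool.Agent.Helper33.RP.ExistsPD

/-!
# The places of a number field over `∞` and over the primes dividing a given integer
-/

set_option autoImplicit false
set_option linter.unusedSectionVars false
set_option linter.style.haveILetI false

namespace Pool.Agent.Helper65.RP

open Pool.Agent.Helper85.Sub Pool.Agent.Helper85.RC Pool.Agent.Helper10.Sub NumberField
open Pool.Agent.Helper33.RP

/-- The number of embeddings. -/
theorem card_Lam (K : Type) [Field K] [NumberField K] (T : Finset Nat.Primes) :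
    Fintype.card (Lam K T) = Module.finrank ℚ K * (1 + T.card) := by
  classical
  rw [Fintype.card_sum, Fintype.card_sigma]
  have h1 : Fintype.card (K →+* ℂ) = Module.finrank ℚ K := by
    rw [Fintype.card_congr (RingHom.equivRatAlgHom K ℂ)]
    exact AlgHom.card ℚ K ℂ
  have h2 : ∀ t : T, Fintype.card (K →+* FF K (pr T t)) = Module.finrank ℚ K := fun t =>
    card_embL (RingHom.id K)
  rw [h1, Finset.sum_congr rfl fun t _ => h2 t, Finset.sum_const, Finset.card_univ,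
    Fintype.card_coe, smul_eq_mul]
  ring

lemma card_compl_add {Λ : Type} [Fintype Λ] (G : Finset Λ) [Fintype {l : Λ // l ∉ G}] :
    Fintype.card {l : Λ // l ∉ G} + G.card = Fintype.card Λ := by
  classical
  have h1 : Fintype.card {l : Λ // l ∉ G} = (Gᶜ).card := by
    rw [← Fintype.card_coe]
    exact Fintype.card_congr (Equiv.subtypeEquivRight fun x => Finset.mem_compl.symm)
  rw [h1, Finset.card_compl_add_card]

/-- The case of a complex embedding. -/
theorem case_inl_inj {K : Type} [Field K] [NumberField K] (T : Finset Nat.Primes) (σ₀ : K →+* ℂ) :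
    ∃ (Ω : Type) (_ : NormedField Ω) (_ : IsAlgClosed Ω) (_ : CharZero Ω)
        (_ : Algebra K Ω) (Λ' : Type) (_ : Fintype Λ') (Z : PD K Ω Λ') (ι : Λ' → Lam K T),
        Z.O = OP K (pprod (pr T)) ∧ (∀ x, ‖algebraMap K Ω x‖ = av K T (Sum.inl σ₀) x) ∧
          Function.Injective ι ∧ Fintype.card Λ' + Z.n = Fintype.card (Lam K T) ∧
          ∀ l x, Z.abv l x = av K T (ι l) x := by
  classical
  letI : Algebra K ℂ := σ₀.toAlgebra
  let G : Finset (Lam K T) := {Sum.inl σ₀, Sum.inl ((starRingEnd ℂ).comp σ₀)}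
  have hG0 : (Sum.inl σ₀ : Lam K T) ∈ G := Finset.mem_insert_self _ _
  have hmem : ∀ l ∈ G, l = Sum.inl σ₀ ∨ l = Sum.inl ((starRingEnd ℂ).comp σ₀) := by
    intro l hl
    rcases Finset.mem_insert.1 hl with h | h
    · exact Or.inl h
    · exact Or.inr (Finset.mem_singleton.1 h)
  have hN : ∀ l ∈ G, ∀ x, av K T l x = ‖algebraMap K ℂ x‖ := by
    intro l hl x
    rcases hmem l hl with rfl | rfl
    · rfl
    · rw [av_inl]
      exact Complex.norm_conj (σ₀ x)
  refine ⟨ℂ, inferInstance, inferInstance, inferInstance, inferInstance,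
    {l : Lam K T // l ∉ G}, inferInstance,
    mkPD T G ⟨_, hG0⟩ hN ?_, fun l => l.1, rfl, fun x => rfl, Subtype.val_injective, ?_,
    fun l x => rfl⟩
  swap
  · exact card_compl_add G
  intro M A hM hA hdet δ B hδ
  refine sub_gen (L := K) (RingHom.id K) T σ₀ G ?_ ?_ A hM (fun i j => ?_) hdet δ B hδ
  · intro σ hσ
    rcases hmem _ hσ with h | h
    · refine ⟨RingHom.id ℂ, fun z => rfl, fun x => ?_⟩
      rw [Sum.inl.inj h]
      rfl
    · refine ⟨starRingEnd ℂ, fun z => Complex.norm_conj z, fun x => ?_⟩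
      rw [Sum.inl.inj h]
      rfl
  · intro t σ hσ
    exfalso
    rcases hmem _ hσ with h | h
    · rw [idx] at h
      exact Sum.inr_ne_inl h
    · rw [idx] at h
      exact Sum.inr_ne_inl h
  · exact Pool.Agent.Helper94.Sub.isAlgebraic_map (K := K) (RingHom.id ℂ) (hA i j)

/-- The case of a `p`-adic embedding. -/
theorem case_inr_inj {K : Type} [Field K] [NumberField K] (T : Finset Nat.Primes) (t₀ : T)
    (σ₀ : K →+* FF K (pr T t₀)) :
    ∃ (Ω : Type) (_ : NormedField Ω) (_ : IsAlgClosed Ω) (_ : CharZero Ω)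
        (_ : Algebra K Ω) (Λ' : Type) (_ : Fintype Λ') (Z : PD K Ω Λ') (ι : Λ' → Lam K T),
        Z.O = OP K (pprod (pr T)) ∧
          (∀ x, ‖algebraMap K Ω x‖ = av K T (Sum.inr ⟨t₀, σ₀⟩) x) ∧
          Function.Injective ι ∧ Fintype.card Λ' + Z.n = Fintype.card (Lam K T) ∧
          ∀ l x, Z.abv l x = av K T (ι l) x := by
  classical
  let s₀ : K →+* PadicAlgCl (pr T t₀) := liftEquiv σ₀
  letI : Algebra K (PadicAlgCl (pr T t₀)) := s₀.toAlgebra
  let G : Finset (Lam K T) := (Finset.univ.filter fun σ : K →+* FF K (pr T t₀) =>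
    ∀ x, ‖σ x‖ = ‖σ₀ x‖).image fun σ => Sum.inr ⟨t₀, σ⟩
  have hG0 : (Sum.inr ⟨t₀, σ₀⟩ : Lam K T) ∈ G :=
    Finset.mem_image_of_mem _ (Finset.mem_filter.2 ⟨Finset.mem_univ _, fun _ => rfl⟩)
  have hmem : ∀ l ∈ G, ∃ σ : K →+* FF K (pr T t₀), (∀ x, ‖σ x‖ = ‖σ₀ x‖) ∧
      l = Sum.inr ⟨t₀, σ⟩ := by
    intro l hl
    obtain ⟨σ, h1, h2⟩ := Finset.mem_image.1 hl
    exact ⟨σ, (Finset.mem_filter.1 h1).2, h2.symm⟩
  have hN : ∀ l ∈ G, ∀ x, av K T l x = ‖algebraMap K (PadicAlgCl (pr T t₀)) x‖ := by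
    intro l hl x
    obtain ⟨σ, h1, rfl⟩ := hmem l hl
    rw [av_inr, h1 x]
    rfl
  refine ⟨PadicAlgCl (pr T t₀), inferInstance, inferInstance, inferInstance, inferInstance,
    {l : Lam K T // l ∉ G}, inferInstance,
    mkPD T G ⟨_, hG0⟩ hN ?_, fun l => l.1, rfl, fun x => rfl, Subtype.val_injective, ?_,
    fun l x => rfl⟩
  swap
  · exact card_compl_add G
  intro M A hM hA hdet δ B hδ
  have hAQ : ∀ i k, IsAlgebraic ℚ (A i k) := fun i k =>
    Pool.Agent.Helper94.Sub.isAlgebraic_map (K := K) (RingHom.id (PadicAlgCl (pr T t₀))) (hA i k)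
  obtain ⟨L, _, _, j, ι, hj, hE⟩ := exists_nf s₀
    (Finset.univ.image fun q : Fin M × Fin M => A q.1 q.2) (by
      intro x hx
      obtain ⟨q, -, rfl⟩ := Finset.mem_image.1 hx
      exact hAQ _ _)
  have hE' : ∀ i k, ∃ y, ι y = A i k := fun i k =>
    hE _ (Finset.mem_image.2 ⟨(i, k), Finset.mem_univ _, rfl⟩)
  choose y hy using hE'
  let A₀ : Matrix (Fin M) (Fin M) (FF L (pr T t₀)) := fun i k => lift ι (y i k)
  let v : FF L (pr T t₀) →+* PadicAlgCl (pr T t₀) :=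
    ((FF L (pr T t₀)).val : FF L (pr T t₀) →+* PadicAlgCl (pr T t₀))
  have hv : ∀ i k, v (A₀ i k) = A i k := fun i k => hy i k
  let σ₁ : K →+* FF L (pr T t₀) := (lfe j).symm s₀
  have hσ₁ : ∀ x, v (σ₁ x) = algebraMap K (PadicAlgCl (pr T t₀)) x := by
    intro x
    have h1 : lfe j σ₁ = s₀ := (lfe j).apply_symm_apply s₀
    have h2 : lfe j σ₁ x = s₀ x := by rw [h1]
    exact h2
  have hvn : ∀ z, ‖v z‖ = ‖z‖ := fun z => rfl
  have hσ₁n : ∀ x, ‖σ₁ x‖ = ‖σ₀ x‖ := by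
    intro x
    rw [← hvn, hσ₁]
    rfl
  have hdet₀ : A₀.det ≠ 0 := by
    intro h0
    apply hdet
    have h1 : A = A₀.map v := by
      ext i k
      exact (hv i k).symm
    have h2 : (A₀.map v).det = v A₀.det := (RingHom.map_det v _).symm
    rw [h1, h2, h0, map_zero]
  have hA₀ : ∀ i k, IsAlgebraic ℚ (A₀ i k) := fun i k => by
    have h1 : IsAlgebraic ℚ (y i k) := Algebra.IsAlgebraic.isAlgebraic _
    exact h1.algHom (lift ι).toRatAlgHom
  obtain ⟨𝒲, h𝒲, hmain⟩ := sub_gen (L := L) j T σ₁ G (by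
      intro σ hσ
      exfalso
      obtain ⟨σ', -, h2⟩ := hmem _ hσ
      exact Sum.inl_ne_inr h2) (by
      intro t σ hσ
      obtain ⟨σ', h1, h2⟩ := hmem _ hσ
      rw [idx] at h2
      have h3 := Sum.inr.inj h2
      have ht : t = t₀ := congrArg Sigma.fst h3
      subst ht
      have h4 : dn j σ = σ' := eq_of_heq (Sigma.mk.inj h3).2
      refine exists_conj (K := K) (L := L) σ₁ σ fun x => ?_
      rw [← dn_norm j σ x, h4, h1 x, hσ₁n x]) A₀ hM hA₀ hdet₀ δ B hδ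
  refine ⟨𝒲, h𝒲, ?_⟩
  intro Q a b z hQ hz ha hb hrow hav hprod
  refine hmain Q a b z hQ hz ha hb ?_ hav hprod
  intro i
  have h1 : v (∑ k, A₀ i k * σ₁ (z k)) =
      ∑ k, A i k * algebraMap K (PadicAlgCl (pr T t₀)) (z k) := by
    rw [map_sum]
    refine Finset.sum_congr rfl fun k _ => ?_
    rw [map_mul, hv, hσ₁]
  rw [← hvn, h1]
  exact hrow i

/-- The data of `exists_pd` at the places over a finite set of primes. -/
theorem exists_pd_T (K : Type) [Field K] [NumberField K] (T : Finset Nat.Primes) :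
    ∃ (Λ : Type) (_ : Fintype Λ) (abv : Λ → AbsoluteValue K ℝ) (O : Subring K),
      (∀ x, x ∈ O ↔ ∃ m : ℕ, IsIntegral ℤ (((∏ t : T, (t.1 : ℕ) : ℕ) : K) ^ m * x)) ∧
      Fintype.card Λ = Module.finrank ℚ K * (1 + T.card) ∧
      (∀ l : Λ, (∃ σ : K →+* ℂ, ∀ x, abv l x = ‖σ x‖) ∨
        ∃ (p : ℕ) (hp : p.Prime), (⟨p, hp⟩ : Nat.Primes) ∈ T ∧ ∃ _ : Fact p.Prime,
          ∃ σ : K →+* PadicAlgCl p, ∀ x, abv l x = ‖σ x‖) ∧
      (∀ B : ℝ, {x : K | x ∈ O ∧ ∀ l, abv l x ≤ B}.Finite) ∧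
      ∀ l₀ : Λ, ∃ (Ω : Type) (_ : NormedField Ω) (_ : IsAlgClosed Ω) (_ : CharZero Ω)
        (_ : Algebra K Ω) (Λ' : Type) (_ : Fintype Λ') (Z : PD K Ω Λ') (ι : Λ' → Λ),
        Z.O = O ∧ (∀ x, ‖algebraMap K Ω x‖ = abv l₀ x) ∧ Function.Injective ι ∧
          Fintype.card Λ' + Z.n = Fintype.card Λ ∧ ∀ l x, Z.abv l x = abv (ι l) x := by
  classical
  refine ⟨Lam K T, inferInstance, av K T, OP K (pprod (pr T)), fun x => Iff.rfl,
    card_Lam K T, ?_, fun B => finite_le B, ?_⟩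
  · rintro (σ | ⟨t, σ⟩)
    · exact Or.inl ⟨σ, fun x => rfl⟩
    · exact Or.inr ⟨pr T t, t.1.2, t.2, inferInstance, liftEquiv σ, fun x => rfl⟩
  · rintro (σ₀ | ⟨t₀, σ₀⟩)
    · exact case_inl_inj T σ₀
    · exact case_inr_inj T t₀ σ₀

/-- The same over the primes dividing `d`. -/
theorem exists_pd_int (K : Type) [Field K] [NumberField K] (d : ℕ) (hd : d ≠ 0) :
    ∃ (Λ : Type) (_ : Fintype Λ) (abv : Λ → AbsoluteValue K ℝ) (O : Subring K),
      (∀ x, x ∈ O ↔ ∃ m : ℕ, IsIntegral ℤ ((d : K) ^ m * x)) ∧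
      Fintype.card Λ = Module.finrank ℚ K * (1 + d.primeFactors.card) ∧
      (∀ l : Λ, (∃ σ : K →+* ℂ, ∀ x, abv l x = ‖σ x‖) ∨
        ∃ p : ℕ, p ∣ d ∧ ∃ _ : Fact p.Prime,
          ∃ σ : K →+* PadicAlgCl p, ∀ x, abv l x = ‖σ x‖) ∧
      (∀ B : ℝ, {x : K | x ∈ O ∧ ∀ l, abv l x ≤ B}.Finite) ∧
      ∀ l₀ : Λ, ∃ (Ω : Type) (_ : NormedField Ω) (_ : IsAlgClosed Ω) (_ : CharZero Ω)
        (_ : Algebra K Ω) (Λ' : Type) (_ : Fintype Λ') (Z : PD K Ω Λ') (ι : Λ' → Λ),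
        Z.O = O ∧ (∀ x, ‖algebraMap K Ω x‖ = abv l₀ x) ∧ Function.Injective ι ∧
          Fintype.card Λ' + Z.n = Fintype.card Λ ∧ ∀ l x, Z.abv l x = abv (ι l) x := by
  classical
  let em : {p // p ∈ d.primeFactors} ↪ Nat.Primes :=
    ⟨fun p => ⟨p.1, Nat.prime_of_mem_primeFactors p.2⟩, fun p q h =>
      Subtype.ext (congrArg (fun t : Nat.Primes => (t : ℕ)) h)⟩
  let T : Finset Nat.Primes := d.primeFactors.attach.map em
  have hTc : T.card = d.primeFactors.card := by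
    rw [Finset.card_map, Finset.card_attach]
  have hT : ∀ t : Nat.Primes, t ∈ T ↔ (t : ℕ) ∣ d := by
    intro t
    constructor
    · intro h
      obtain ⟨p, -, rfl⟩ := Finset.mem_map.1 h
      exact Nat.dvd_of_mem_primeFactors p.2
    · intro h
      exact Finset.mem_map.2 ⟨⟨t, Nat.mem_primeFactors.2 ⟨t.2, h, hd⟩⟩, Finset.mem_attach _ _, rfl⟩
  have hprod : (∏ t : T, (t.1 : ℕ)) = ∏ p ∈ d.primeFactors, p := by
    rw [Finset.prod_coe_sort T fun t : Nat.Primes => (t : ℕ)]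
    rw [Finset.prod_map]
    exact Finset.prod_attach d.primeFactors fun p => p
  obtain ⟨Λ, i1, abv, O, hO, hcard, hfld, hfin, hpd⟩ := exists_pd_T K T
  refine ⟨Λ, i1, abv, O, ?_, ?_, ?_, hfin, hpd⟩
  · intro x
    rw [hO x, hprod]
    have hrad : (∏ p ∈ d.primeFactors, p) ∣ d := Nat.prod_primeFactors_dvd d
    have hrad2 : d ∣ (∏ p ∈ d.primeFactors, p) ^ d := by
      rw [← Finset.prod_pow]
      have h1 : (∏ p ∈ d.primeFactors, p ^ d.factorization p) = d :=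
        Nat.prod_factorization_pow_eq_self hd
      have h2 : (∏ p ∈ d.primeFactors, p ^ d.factorization p) ∣ ∏ p ∈ d.primeFactors, p ^ d :=
        Finset.prod_dvd_prod_of_dvd _ _ fun p _ => pow_dvd_pow p (Nat.factorization_lt p hd).le
      rw [h1] at h2
      exact h2
    constructor
    · rintro ⟨m, hm⟩
      refine ⟨m, ?_⟩
      obtain ⟨c, hc⟩ := pow_dvd_pow_of_dvd hrad m
      have h1 : (d : K) ^ m = (c : K) * ((∏ p ∈ d.primeFactors, p : ℕ) : K) ^ m := by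
        rw [← Nat.cast_pow, hc]
        push_cast
        ring
      rw [h1, mul_assoc]
      exact (isIntegral_natCast c).mul hm
    · rintro ⟨m, hm⟩
      refine ⟨d * m, ?_⟩
      obtain ⟨c, hc⟩ := pow_dvd_pow_of_dvd hrad2 m
      have h1 : ((∏ p ∈ d.primeFactors, p : ℕ) : K) ^ (d * m) = (c : K) * (d : K) ^ m := by
        rw [← Nat.cast_pow, pow_mul, hc]
        push_cast
        ring
      rw [h1, mul_assoc]
      exact (isIntegral_natCast c).mul hm
  · rw [hcard, hTc]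
  · intro l
    rcases hfld l with h | ⟨p, hp, hpT, i2, σ, hσ⟩
    · exact Or.inl h
    · exact Or.inr ⟨p, (hT _).1 hpT, i2, σ, hσ⟩

end Pool.Agent.Helper65.RP
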